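import Pool.Agent.H37.UM.Stmts

/-!
# Project UM, module IP2
-/

set_option autoImplicit false

namespace Pool.Agent.H28.UM.IP2

open Finset Pool.Agent.H37.UM

/-! ### Numerical values of logarithms -/

theorem exp_ub {x : ℝ} (h0 : 0 ≤ x) (h1 : x ≤ 1) :
    Real.exp x ≤ 1 + x + x ^ 2 / 2 + x ^ 3 / 6 + x ^ 4 / 24 + x ^ 5 / 120 + x ^ 6 * 7 / 4320 := by
  have := Real.exp_bound' h0 h1 (n := 6) (by norm_num)
  simp [Finset.sum_range_succ, Nat.factorial] at this
  linarith

theorem exp_lb {x : ℝ} (h0 : 0 ≤ x) :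
    1 + x + x ^ 2 / 2 + x ^ 3 / 6 + x ^ 4 / 24 + x ^ 5 / 120 ≤ Real.exp x := by
  have := Real.sum_le_exp_of_nonneg h0 6
  simp [Finset.sum_range_succ, Nat.factorial] at this
  linarith

theorem le_log_of {c y : ℝ} (k : ℕ) (t : ℝ) (hc : c = k + t) (ht : 0 ≤ t) (ht1 : t ≤ 1)
    (h : 2.7182818286 ^ k * (1 + t + t ^ 2 / 2 + t ^ 3 / 6 + t ^ 4 / 24 + t ^ 5 / 120 + t ^ 6 * 7 / 4320) ≤ y)
    (hy : 0 < y) : c ≤ Real.log y := by
  rw [Real.le_log_iff_exp_le hy, hc, Real.exp_add, ← Real.exp_one_pow]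
  refine le_trans ?_ h
  have h1 := Real.exp_one_lt_d9.le
  have h2 := exp_ub ht ht1
  gcongr

theorem log_le_of {c y : ℝ} (k : ℕ) (t : ℝ) (hc : c = k + t) (ht : 0 ≤ t)
    (h : y ≤ 2.7182818283 ^ k * (1 + t + t ^ 2 / 2 + t ^ 3 / 6 + t ^ 4 / 24 + t ^ 5 / 120))
    (hy : 0 < y) : Real.log y ≤ c := by
  rw [Real.log_le_iff_le_exp hy, hc, Real.exp_add, ← Real.exp_one_pow]
  refine le_trans h ?_
  have h1 := Real.exp_one_gt_d9.le
  have h2 := exp_lb ht
  gcongr

theorem log1 : (3.27 : ℝ) ≤ Real.log 26.35 := le_log_of 3 0.27 (by norm_num) (by norm_num) (by norm_num)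
  (by norm_num) (by norm_num)

theorem log2 : (0.673 : ℝ) ≤ Real.log 1.962 := le_log_of 0 0.673 (by norm_num) (by norm_num) (by norm_num)
  (by norm_num) (by norm_num)

theorem log3 : Real.log 15.81 ≤ 2.762 := log_le_of 2 0.762 (by norm_num) (by norm_num)
  (by norm_num) (by norm_num)

theorem log4 : Real.log 3 ≤ 1.099 := log_le_of 1 0.099 (by norm_num) (by norm_num)
  (by norm_num) (by norm_num)

theorem log5 : Real.log 0.26 ≤ -1.346 := by
  have h : (1.346 : ℝ) ≤ Real.log (1 / 0.26) := le_log_of 1 0.346 (by norm_num) (by norm_num) (by norm_num)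
    (by norm_num) (by norm_num)
  rw [one_div, Real.log_inv] at h
  linarith

theorem log6 : (5.52 : ℝ) ≤ Real.log 250 := le_log_of 5 0.52 (by norm_num) (by norm_num) (by norm_num)
  (by norm_num) (by norm_num)

/-! ### The two regimes -/

theorem caseA {x u S : ℝ} (hx : 15.81 ≤ x) (hu0 : 0 < u) (hu : u ≤ 0.6 / x)
    (hS : S ≤ 1.2623 * x ^ 2 + 1.3772) :
    Real.log (3 * (x ^ 2) ^ 2) + (x + 6) * Real.log (1 / u) + (2 * x + 1.33) +
      2 * Real.log (0.26 * x ^ 2 * x) ≤
    (x ^ 2 - 2) * ((Real.log (2 - u) + Real.log (1 / u)) / 2) - S - 2.5651 * x := by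
  have hx0 : 0 < x := by linarith
  have hL : 3.27 ≤ Real.log (1 / u) := by
    refine le_trans log1 (Real.log_le_log (by norm_num) ?_)
    rw [le_div_iff₀ hu0]
    have : u * x ≤ 0.6 := by rwa [le_div_iff₀ hx0] at hu
    nlinarith
  have hu2 : u ≤ 0.038 := by
    refine hu.trans ?_
    rw [div_le_iff₀ hx0]
    nlinarith
  have h2 : 0.673 ≤ Real.log (2 - u) := by
    refine le_trans log2 (Real.log_le_log (by norm_num) ?_)
    linarith
  have hlx : Real.log x ≤ 2.762 + (x / 15.81 - 1) := by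
    have e : Real.log x = Real.log 15.81 + Real.log (x / 15.81) := by
      rw [← Real.log_mul (by norm_num) (by positivity)]
      congr 1
      field_simp
    rw [e]
    have h3 := Real.log_le_sub_one_of_pos (show 0 < x / 15.81 by positivity)
    have h4 := log3
    linarith
  have e1 : Real.log (3 * (x ^ 2) ^ 2) = Real.log 3 + 4 * Real.log x := by
    rw [Real.log_mul (by norm_num) (by positivity), ← pow_mul, Real.log_pow]
    norm_num
  have e2 : Real.log (0.26 * x ^ 2 * x) = Real.log 0.26 + 3 * Real.log x := by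
    rw [mul_assoc, ← pow_succ, Real.log_mul (by norm_num) (by positivity), Real.log_pow]
    norm_num
  rw [e1, e2]
  have h4 := log4
  have h5 := log5
  have hc : 0 ≤ (x ^ 2 - 2) / 2 - x - 6 := by nlinarith
  have h6 := mul_le_mul_of_nonneg_left hL hc
  have h7 : (x ^ 2 - 2) / 2 * 0.673 ≤ (x ^ 2 - 2) / 2 * Real.log (2 - u) :=
    mul_le_mul_of_nonneg_left h2 (by nlinarith)
  have h8 : x / 15.81 ≤ 0.06326 * x := by
    rw [div_le_iff₀ (by norm_num)]
    nlinarith
  nlinarith

theorem caseB {x u S s : ℝ} (hx : 15.81 ≤ x) (hxn : 250 ≤ x ^ 2) (hu : 2 / x ^ 2 ≤ u) (hu4 : u ≤ 4 / x ^ 2)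
    (hs1 : u ≤ s) (hs2 : s ≤ u / (1 - u))
    (hS : S ≤ x ^ 2 * (Real.log (2 / (s * x ^ 2)) + 1 + Real.log 2) +
      s ^ 2 / 12 * (4 / 21 * (x ^ 2) ^ 3 + (x ^ 2) ^ 2)) :
    Real.log (3 * (x ^ 2) ^ 2) + (x + 6) * Real.log (1 / u) + (2 * x + 1.33) +
      2 * Real.log (0.26 * x ^ 2 * x) ≤
    (x ^ 2 - 2) * ((Real.log (2 - u) + Real.log (1 / u)) / 2) - S - 2.5651 * x := by
  have hx0 : 0 < x := by linarith
  set n := x ^ 2 with hn
  have hn0 : 0 < n := by positivity
  set θ := n * u with hθ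
  have hu0 : 0 < u := lt_of_lt_of_le (by positivity) hu
  have hθ2 : 2 ≤ θ := by
    rw [div_le_iff₀ hn0] at hu
    linarith
  have hθ4 : θ ≤ 4 := by
    rw [le_div_iff₀ hn0] at hu4
    linarith
  have hu16 : u ≤ 0.016 := by
    have : n * u ≤ 4 := hθ4
    nlinarith
  set τ := Real.log (θ / 2) with hτ
  have hτ1 : (θ - 2) / 4 ≤ τ := by
    have h1 := Real.one_sub_inv_le_log_of_pos (show 0 < θ / 2 by positivity)
    refine le_trans ?_ h1
    rw [inv_div]
    have : (θ - 2) / 4 ≤ (θ - 2) / θ := by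
      apply div_le_div_of_nonneg_left (by linarith) (by linarith) hθ4
    refine this.trans (le_of_eq ?_)
    field_simp
  -- the terms
  have eΛ : Real.log (1 / u) = Real.log n - Real.log 2 - τ := by
    have : 1 / u = n / 2 / (θ / 2) := by
      rw [hθ]
      field_simp
    rw [this, Real.log_div (by positivity) (by positivity), Real.log_div (by positivity) (by norm_num)]
  have e1 : Real.log (3 * n ^ 2) = Real.log 3 + 2 * Real.log n := by
    rw [Real.log_mul (by norm_num) (by positivity), Real.log_pow]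
    norm_num
  have elx : Real.log n = 2 * Real.log x := by
    rw [hn, Real.log_pow]
    norm_num
  have e2 : Real.log (0.26 * n * x) = Real.log 0.26 + 3 / 2 * Real.log n := by
    rw [Real.log_mul (by positivity) (by positivity), Real.log_mul (by norm_num) (by positivity), elx]
    ring
  have h2u : Real.log 2 - u / 2 / (1 - u / 2) ≤ Real.log (2 - u) := by
    have e : 2 - u = 2 * (1 - u / 2) := by ring
    rw [e, Real.log_mul (by norm_num) (by linarith)]
    have h3 := Real.one_sub_inv_le_log_of_pos (show 0 < 1 - u / 2 by linarith)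
    have h4 : 1 - (1 - u / 2)⁻¹ = -(u / 2 / (1 - u / 2)) := by
      have : 1 - u / 2 ≠ 0 := by linarith
      have h := mul_inv_cancel₀ this
      rw [div_eq_mul_inv (u / 2)]
      linear_combination (-1 : ℝ) * h
    linarith
  have h2u' : (n - 2) / 2 * Real.log 2 - 1.01 ≤ (n - 2) / 2 * Real.log (2 - u) := by
    have h5 : (n - 2) / 2 * (u / 2 / (1 - u / 2)) ≤ 1.01 := by
      rw [← mul_div_assoc, div_le_iff₀ (by linarith)]
      have : n * u ≤ 4 := hθ4
      nlinarith
    have h6 := mul_le_mul_of_nonneg_left h2u (show 0 ≤ (n - 2) / 2 by linarith)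
    nlinarith
  have hs0 : 0 < s := lt_of_lt_of_le hu0 hs1
  have hlogs : Real.log (2 / (s * n)) ≤ -τ := by
    have : 2 / (s * n) ≤ 2 / θ := by
      apply div_le_div_of_nonneg_left (by norm_num) (by positivity)
      rw [hθ, mul_comm]
      exact mul_le_mul_of_nonneg_right hs1 hn0.le
    refine (Real.log_le_log (by positivity) this).trans (le_of_eq ?_)
    rw [hτ, ← Real.log_inv, inv_div]
  have hs3 : s ≤ 1.01627 * u := by
    refine hs2.trans ?_
    rw [div_le_iff₀ (by linarith)]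
    nlinarith
  have hs4 : s ^ 2 / 12 * (4 / 21 * n ^ 3 + n ^ 2) ≤ θ ^ 2 * (0.016394 * n + 0.0861) := by
    have h7 : s ^ 2 ≤ (1.01627 * u) ^ 2 := pow_le_pow_left₀ hs0.le hs3 2
    calc s ^ 2 / 12 * (4 / 21 * n ^ 3 + n ^ 2)
        ≤ (1.01627 * u) ^ 2 / 12 * (4 / 21 * n ^ 3 + n ^ 2) := by gcongr
      _ = θ ^ 2 * (1.01627 ^ 2 / 12 * (4 / 21) * n + 1.01627 ^ 2 / 12) := by
          rw [hθ]; ring
      _ ≤ _ := by
          apply mul_le_mul_of_nonneg_left _ (by positivity)
          norm_num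
          nlinarith
  have hS2 : S ≤ n * (-τ + 1 + Real.log 2) + θ ^ 2 * (0.016394 * n + 0.0861) := by
    refine hS.trans (add_le_add ?_ hs4)
    apply mul_le_mul_of_nonneg_left _ hn0.le
    linarith
  have hθsq : θ ^ 2 * (0.016394 * n + 0.0861) ≤ 0.0656 * n + 0.125 * n * (θ - 2) + 1.378 := by
    nlinarith [mul_nonneg hn0.le (show 0 ≤ θ - 2 by linarith), mul_nonneg (show 0 ≤ θ - 2 by linarith) (show 0 ≤ 4 - θ by linarith), mul_nonneg hn0.le (mul_nonneg (show 0 ≤ θ - 2 by linarith) (show 0 ≤ 4 - θ by linarith))]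
  have hL : 5.52 ≤ Real.log n := log6.trans (Real.log_le_log (by norm_num) hxn)
  have h4 := log4
  have h5 := log5
  have hl2 := Real.log_two_gt_d9
  have hl2' := Real.log_two_lt_d9
  have hc : 0 ≤ (n - 2) / 2 - x - 11 := by nlinarith
  have h6 := mul_le_mul_of_nonneg_left hL hc
  have hτ2 : n / 2 * ((θ - 2) / 4) ≤ n / 2 * τ := mul_le_mul_of_nonneg_left hτ1 (by positivity)
  have hτ0 : 0 ≤ τ := le_trans (by linarith) hτ1
  have h9 : 0 ≤ (x + 7) * τ := mul_nonneg (by linarith) hτ0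
  have h10 : 0 ≤ (x + 6) * (Real.log 2 - 0.693) := mul_nonneg (by linarith) (by linarith)
  have h11 : 0 ≤ n * (0.6932 - Real.log 2) := mul_nonneg hn0.le (by linarith)
  have hfin : 0 ≤ 1.0012 * n - 9.393 * x - 65 := by rw [hn]; nlinarith
  rw [e1, e2, eΛ]
  nlinarith

theorem IP2_thm (hSSB : SSBStmt) : IP2Stmt := by
  intro N r B hN hr hr2 hB
  have hNr : (250 : ℝ) ≤ N := by exact_mod_cast hN
  set x := √(N : ℝ) with hx
  have hxx : x ^ 2 = N := Real.sq_sqrt (by linarith)
  have hx0 : 0 ≤ x := Real.sqrt_nonneg _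
  have hx1 : 15.81 ≤ x := by
    rw [hx]
    apply Real.le_sqrt_of_sq_le
    norm_num
    linarith
  have hxp : 0 < x := by linarith
  have hNp : (0 : ℝ) < N := by linarith
  set u := 1 - r with hu
  have hru : r = 1 - u := by rw [hu]; ring
  have hu1 : u ≤ 0.6 / x := by rw [hu]; linarith
  have hu2 : 2 / (N : ℝ) ≤ u := by rw [hu]; linarith
  have hu0 : 0 < u := lt_of_lt_of_le (by positivity) hu2
  have hu3 : u ≤ 0.038 := by
    refine hu1.trans ?_
    rw [div_le_iff₀ hxp]
    nlinarith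
  have hr0 : 0 < r := by linarith
  have hr1 : r < 1 := by linarith
  set s := Real.log (1 / r) with hs
  have hs1 : u ≤ s := by
    rw [hs, one_div, Real.log_inv]
    have := Real.log_le_sub_one_of_pos hr0
    linarith
  have hs2 : s ≤ u / (1 - u) := by
    rw [hs, one_div, Real.log_inv, ← hru]
    have := Real.one_sub_inv_le_log_of_pos hr0
    have e : u / r = r⁻¹ - 1 := by
      rw [hu]
      field_simp
    rw [e]
    linarith
  have hs0 : 0 < s := lt_of_lt_of_le hu0 hs1
  -- the width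
  have hB1 : 1 ≤ B1 N r := by
    rw [B1]
    have : 0 ≤ √((N : ℝ) * r) / (1 - r) := div_nonneg (Real.sqrt_nonneg _) (by linarith)
    linarith
  have hB1' : B1 N r ≤ x / u + 1 := by
    rw [B1, ← hu]
    have : √((N : ℝ) * r) ≤ x := Real.sqrt_le_sqrt (by nlinarith)
    have := div_le_div_of_nonneg_right this hu0.le
    linarith
  have hB0 : B0 N = 0.26 * x ^ 2 * x := by rw [B0, hxx]
  have hB01 : 1 ≤ B0 N := by
    rw [hB0]
    nlinarith [mul_pos hxp hxp]
  have hBge : 1 ≤ B := by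
    rw [hB]
    exact le_min hB1 hB01
  have hBlog : 2 * Real.log B ≤ 2 * Real.log (0.26 * x ^ 2 * x) := by
    rw [← hB0]
    have : Real.log B ≤ Real.log (B0 N) := Real.log_le_log (by linarith) (by rw [hB]; exact min_le_right _ _)
    linarith
  have hBs : 2 * B * s ≤ 2 * x + 1.33 := by
    have h1 : B ≤ x / u + 1 := le_trans (by rw [hB]; exact min_le_left _ _) hB1'
    have h2 : 2 * B * s ≤ 2 * (x / u + 1) * (u / (1 - u)) := by
      apply mul_le_mul _ hs2 hs0.le (by positivity)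
      linarith
    refine h2.trans ?_
    have e : 2 * (x / u + 1) * (u / (1 - u)) = 2 * (x + u) / (1 - u) := by
      have : (1 - u) ≠ 0 := by linarith
      field_simp
    rw [e, div_le_iff₀ (by linarith)]
    have h3 : u * x ≤ 0.6 := by rwa [le_div_iff₀ hxp] at hu1
    nlinarith
  have hb2 : (b2 N : ℝ) ≤ x + 6 := by
    have h1 : b2 N ≤ Nat.sqrt N + 6 := by
      rw [b2]
      have := Nat.div_mul_le_self (Nat.sqrt N) 6
      omega
    have h2 : (b2 N : ℝ) ≤ Nat.sqrt N + 6 := by exact_mod_cast h1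
    have h3 : (Nat.sqrt N : ℝ) ≤ x := Real.nat_sqrt_le_real_sqrt
    linarith
  have hΛ : 0 ≤ Real.log (1 / u) := by
    apply Real.log_nonneg
    rw [le_div_iff₀ hu0]
    linarith
  have hb3 : (b2 N : ℝ) * Real.log (1 / u) ≤ (x + 6) * Real.log (1 / u) :=
    mul_le_mul_of_nonneg_right hb2 hΛ
  have hA : A1 N r = (x ^ 2 - 2) * ((Real.log (2 - u) + Real.log (1 / u)) / 2) - SS N r - 2.5651 * x := by
    rw [A1, hxx]
    have : (1 + r) / (1 - r) = (2 - u) * (1 / u) := by
      rw [← hu, hru]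
      field_simp
      ring
    rw [this, Real.log_mul (by linarith) (by positivity)]
  rw [hA]
  have key : Real.log (3 * (x ^ 2) ^ 2) + (x + 6) * Real.log (1 / u) + (2 * x + 1.33) +
      2 * Real.log (0.26 * x ^ 2 * x) ≤
    (x ^ 2 - 2) * ((Real.log (2 - u) + Real.log (1 / u)) / 2) - SS N r - 2.5651 * x := by
    by_cases h4 : 4 / (N : ℝ) ≤ u
    · apply caseA hx1 hu0 hu1
      have hr' : r ≤ 1 - 4 / (N : ℝ) := by linarith
      have h4N : 0 < 4 / (N : ℝ) := by positivity
      refine (hSSB.2.2.1 N r (1 - 4 / (N : ℝ)) hr0 hr' (by linarith)).trans ?_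
      have h5 : (4 : ℝ) / N ≤ 0.016 := by
        rw [div_le_iff₀ hNp]
        linarith
      refine (hSSB.2.1 N (1 - 4 / (N : ℝ)) (by omega) (by linarith) (by linarith)).trans ?_
      set v := (4 : ℝ) / N with hv
      have hvN : v * N = 4 := by rw [hv]; field_simp
      set s' := Real.log (1 / (1 - v)) with hs'
      have t1 : v ≤ s' := by
        rw [hs', one_div, Real.log_inv]
        have := Real.log_le_sub_one_of_pos (show 0 < 1 - v by linarith)
        linarith
      have t2 : s' ≤ 1.01627 * v := by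
        rw [hs', one_div, Real.log_inv]
        have h6 := Real.one_sub_inv_le_log_of_pos (show 0 < 1 - v by linarith)
        have e : (1 - v)⁻¹ - 1 ≤ 1.01627 * v := by
          have h7 : (1 - v)⁻¹ ≤ 1 + 1.01627 * v := by
            rw [inv_le_iff_one_le_mul₀ (by linarith)]
            nlinarith
          linarith
        linarith
      have t3 : Real.log (2 / (s' * N)) ≤ -Real.log 2 := by
        have h7 : 2 / (s' * N) ≤ 2⁻¹ := by
          rw [div_le_iff₀ (by nlinarith)]
          nlinarith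
        rw [← Real.log_inv]
        exact Real.log_le_log (by apply div_pos (by norm_num); nlinarith) h7
      have t4 : s' ^ 2 / 12 * (4 / 21 * (N : ℝ) ^ 3 + (N : ℝ) ^ 2) ≤
          0.2623 * N + 1.3772 := by
        have t5 : s' ^ 2 ≤ (1.01627 * v) ^ 2 := pow_le_pow_left₀ (by linarith) t2 2
        calc s' ^ 2 / 12 * (4 / 21 * (N : ℝ) ^ 3 + (N : ℝ) ^ 2)
            ≤ (1.01627 * v) ^ 2 / 12 * (4 / 21 * (N : ℝ) ^ 3 + (N : ℝ) ^ 2) := by gcongr
          _ = (v * N) ^ 2 * (1.01627 ^ 2 / 12 * (4 / 21) * N + 1.01627 ^ 2 / 12) := by ring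
          _ ≤ _ := by
              rw [hvN]
              norm_num
              nlinarith
      have t6 : (N : ℝ) * (Real.log (2 / (s' * N)) + 1 + Real.log 2) ≤ N := by
        have : Real.log (2 / (s' * N)) + 1 + Real.log 2 ≤ 1 := by linarith
        calc (N : ℝ) * (Real.log (2 / (s' * N)) + 1 + Real.log 2) ≤ N * 1 :=
              mul_le_mul_of_nonneg_left this hNp.le
          _ = N := mul_one _
      rw [hxx]
      linarith
    · apply caseB hx1 (by rw [hxx]; exact hNr) (by rw [hxx]; exact hu2) (by rw [hxx]; exact (not_le.1 h4).le)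
        hs1 hs2
      rw [hxx]
      exact hSSB.2.1 N r (by omega) hr0 hr1
  rw [hxx] at key ⊢
  rw [hxx] at hBlog
  linarith

end Pool.Agent.H28.UM.IP2
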