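import Pool.Agent.H37.UM.Stmts
import Pool.Agent.H37.UM.Tab

/-!
# Project UM, module KTAB: fixed point evaluation of the table `ktab`
-/

set_option autoImplicit false

namespace Pool.Agent.H28.UM.KTAB

open Finset Pool.Agent.H37.UM

/-- evaluate `n` before calling `f` -/
def fz (n : ℕ) (f : ℕ → ℕ) : ℕ := Nat.rec (f 0) (fun k _ => f (Nat.succ k)) n

def mulU (a b : ℕ) : ℕ := Nat.succ (Nat.shiftRight (Nat.mul a b) 64)

def geo (y : ℕ) (L : ℕ) : ℕ → ℕ :=
  Nat.rec (fun t => t) (fun _ ih t => fz (mulU (Nat.add t 18446744073709551616) y) ih) L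

def hor (x A : ℕ) (c : ℕ) : ℕ → ℕ → ℕ :=
  Nat.rec (fun _ acc => acc)
    (fun _ ih Ak acc => fz (Nat.add (mulU acc x) Ak) fun acc' => fz (mulU Ak A) fun Ak' => ih Ak' acc') c

/-- the factor of index `i`; `R`, `Qi` bounds for `r ^ i`, `q ^ i` -/
def fac (j i R Qi : ℕ) : ℕ :=
  fz (Nat.div j i) fun M =>
  fz (Nat.succ (Nat.log2 M)) fun c =>
  fz (Nat.succ (Nat.div 340282366920938463463374607431768211456 (Nat.sub 18446744073709551616 R))) fun D =>
  fz (mulU Qi D) fun y =>
  fz (Nat.add 18446744073709551616 R) fun A =>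
  fz (Nat.add 18446744073709551616 (geo y (Nat.sub M c) 0)) fun t =>
  hor Qi A c A t

def lp (j r q : ℕ) (fuel : ℕ) : ℕ → ℕ → ℕ → ℕ → ℕ :=
  Nat.rec (fun _ _ _ acc => acc)
    (fun _ ih i R Qi acc =>
      fz (mulU acc (fac j i R Qi)) fun acc' =>
      fz (mulU R r) fun R' => fz (mulU Qi q) fun Q' => ih (Nat.succ i) R' Q' acc') fuel

def pw (A : ℕ) (n : ℕ) : ℕ := Nat.rec 18446744073709551616 (fun _ ih => fz ih fun a => mulU a A) n

def val (j r q : ℕ) : ℕ :=
  fz (pw (Nat.add 18446744073709551616 r) (Nat.succ (Nat.log2 j))) fun a =>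
  fz (mulU r r) fun R => fz (mulU q q) fun Q => lp j r q (Nat.sub j 1) 2 R Q a

def sca (a : ℕ) : ℕ := Nat.succ (Nat.div (Nat.mul a 18446744073709551616) 1000)

def chkj (r q G : ℕ) (a : ℕ) (n : ℕ) : Bool :=
  Nat.rec true (fun k ih => Bool.rec false ih (Nat.ble (val (Nat.add a k) r q) G)) n

def chk (e : ℕ × ℕ × ℕ × ℕ × ℕ) : Bool :=
  Bool.rec false (chkj (sca e.2.2.1) (sca e.2.2.2.1) (Nat.mul e.2.2.2.2 281474976710656) (Nat.sub e.1 2)
    (Nat.sub (Nat.add e.2.1 3) e.1)) (Nat.ble 4 e.1 && Nat.ble e.2.2.1 999)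

/-! ### Correctness -/

theorem fz_eq (n : ℕ) (f : ℕ → ℕ) : fz n f = f n := by cases n <;> rfl

/-- `a / 2 ^ 64` is an upper bound of `x` -/
def UB (x : ℝ) (a : ℕ) : Prop := 0 ≤ x ∧ x * 18446744073709551616 ≤ (a : ℝ)

theorem mulU_eq (a b : ℕ) : mulU a b = a * b / 18446744073709551616 + 1 := by
  show Nat.succ ((a * b) >>> 64) = _
  rw [Nat.shiftRight_eq_div_pow]

theorem div_add_one (a b : ℕ) (hb : 0 < b) : (a : ℝ) / b ≤ ((a / b + 1 : ℕ) : ℝ) := by
  have hb' : (0 : ℝ) < b := by exact_mod_cast hb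
  rw [div_le_iff₀ hb']
  have := Nat.div_add_mod a b
  have h2 := Nat.mod_lt a hb
  have h3 : a ≤ (a / b + 1) * b := by nlinarith
  exact_mod_cast h3

theorem mulU_ub {x y : ℝ} {a b : ℕ} (hx : UB x a) (hy : UB y b) : UB (x * y) (mulU a b) := by
  refine ⟨mul_nonneg hx.1 hy.1, ?_⟩
  rw [mulU_eq]
  refine le_trans ?_ (div_add_one (a * b) 18446744073709551616 (by norm_num))
  rw [le_div_iff₀ (by norm_num)]
  push_cast
  calc x * y * 18446744073709551616 * 18446744073709551616
      = (x * 18446744073709551616) * (y * 18446744073709551616) := by ring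
    _ ≤ a * b := mul_le_mul hx.2 hy.2 (mul_nonneg hy.1 (by norm_num)) (Nat.cast_nonneg _)

theorem add_ub {x y : ℝ} {a b : ℕ} (hx : UB x a) (hy : UB y b) : UB (x + y) (Nat.add a b) := by
  refine ⟨add_nonneg hx.1 hy.1, ?_⟩
  show _ ≤ ((a + b : ℕ) : ℝ)
  push_cast
  have h1 := hx.2
  have h2 := hy.2
  linarith

theorem one_ub : UB 1 18446744073709551616 := ⟨by norm_num, by norm_num⟩

theorem mulU_le {R r : ℕ} (h : r < 18446744073709551616) (hR : 1 ≤ R) : mulU R r ≤ R := by
  rw [mulU_eq]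
  have : R * r / 18446744073709551616 < R := by
    apply Nat.div_lt_of_lt_mul
    rw [mul_comm]
    exact Nat.mul_lt_mul_of_pos_right h hR
  omega

theorem mulU_pos (a b : ℕ) : 1 ≤ mulU a b := by rw [mulU_eq]; omega

theorem geo_zero (y t : ℕ) : geo y 0 t = t := rfl

theorem geo_succ (y L t : ℕ) :
    geo y (L + 1) t = fz (mulU (Nat.add t 18446744073709551616) y) (geo y L) := rfl

theorem hor_zero (x A Ak acc : ℕ) : hor x A 0 Ak acc = acc := rfl

theorem hor_succ (x A c Ak acc : ℕ) : hor x A (c + 1) Ak acc =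
    fz (Nat.add (mulU acc x) Ak) fun acc' => fz (mulU Ak A) fun Ak' => hor x A c Ak' acc' := rfl

theorem lp_zero (j r q i R Q acc : ℕ) : lp j r q 0 i R Q acc = acc := rfl

theorem lp_succ (j r q n i R Q acc : ℕ) : lp j r q (n + 1) i R Q acc =
    fz (mulU acc (fac j i R Q)) fun acc' =>
      fz (mulU R r) fun R' => fz (mulU Q q) fun Q' => lp j r q n (Nat.succ i) R' Q' acc' := rfl

theorem pw_zero (A : ℕ) : pw A 0 = 18446744073709551616 := rfl

theorem pw_succ (A n : ℕ) : pw A (n + 1) = fz (pw A n) fun a => mulU a A := rfl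

theorem geo_ub {y : ℕ} {yr : ℝ} (hy : UB yr y) : ∀ (L t : ℕ) (tr : ℝ), UB tr t →
    UB (yr ^ L * tr + ∑ l ∈ range L, yr ^ (l + 1)) (geo y L t) := by
  intro L
  induction L with
  | zero => intro t tr h; rw [geo_zero]; simpa using h
  | succ L ih =>
    intro t tr h
    have e : geo y (L + 1) t = geo y L (mulU (Nat.add t 18446744073709551616) y) := by
      rw [geo_succ, fz_eq]
    rw [e]
    have := ih _ _ (mulU_ub (add_ub h one_ub) hy)
    convert this using 1
    rw [sum_range_succ]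
    ring

theorem hor_ub {x A : ℕ} {xr Ar : ℝ} (hx : UB xr x) (hA : UB Ar A) : ∀ (c Ak acc : ℕ) (Akr accr : ℝ),
    UB Akr Ak → UB accr acc →
    UB (xr ^ c * accr + ∑ k ∈ range c, Akr * Ar ^ k * xr ^ (c - 1 - k)) (hor x A c Ak acc) := by
  intro c
  induction c with
  | zero => intro Ak acc Akr accr _ h; rw [hor_zero]; simpa using h
  | succ c ih =>
    intro Ak acc Akr accr h1 h2
    have e : hor x A (c + 1) Ak acc = hor x A c (mulU Ak A) (Nat.add (mulU acc x) Ak) := by
      rw [hor_succ, fz_eq, fz_eq]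
    rw [e]
    have := ih _ _ _ _ (mulU_ub h1 hA) (add_ub (mulU_ub h2 hx) h1)
    convert this using 1
    rw [sum_range_succ']
    have : ∑ k ∈ range c, Akr * Ar ^ (k + 1) * xr ^ (c + 1 - 1 - (k + 1)) =
        ∑ k ∈ range c, Akr * Ar * Ar ^ k * xr ^ (c - 1 - k) := by
      apply sum_congr rfl
      intro k _
      rw [show c + 1 - 1 - (k + 1) = c - 1 - k by omega]
      ring
    rw [this, show c + 1 - 1 - 0 = c by omega]
    ring

theorem wt_sum (r : ℝ) (i c M : ℕ) (q : ℝ) (hcM : c ≤ M) :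
    ∑ m ∈ range (M + 1), wt r i c m * q ^ (i * m) =
      (q ^ i) ^ c * (1 + ((q ^ i * (1 - r ^ i)⁻¹) ^ (M - c) * 0 +
        ∑ l ∈ range (M - c), (q ^ i * (1 - r ^ i)⁻¹) ^ (l + 1))) +
      ∑ k ∈ range c, (1 + r ^ i) * (1 + r ^ i) ^ k * (q ^ i) ^ (c - 1 - k) := by
  have e1 : M + 1 = c + (M - c + 1) := by omega
  rw [e1, sum_range_add]
  have h1 : ∑ m ∈ range c, wt r i c m * q ^ (i * m) =
      ∑ k ∈ range c, (1 + r ^ i) * (1 + r ^ i) ^ k * (q ^ i) ^ (c - 1 - k) := by
    rw [← sum_range_reflect]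
    apply sum_congr rfl
    intro k hk
    have hk' : k < c := mem_range.1 hk
    rw [wt, if_pos (by omega), ← pow_mul, ← pow_succ', show c - (c - 1 - k) = k + 1 by omega]
  have h2 : ∑ x ∈ range (M - c + 1), wt r i c (c + x) * q ^ (i * (c + x)) =
      (q ^ i) ^ c * (1 + ((q ^ i * (1 - r ^ i)⁻¹) ^ (M - c) * 0 +
        ∑ l ∈ range (M - c), (q ^ i * (1 - r ^ i)⁻¹) ^ (l + 1))) := by
    have hs := sum_range_succ' (fun l => (q ^ i * (1 - r ^ i)⁻¹) ^ l) (M - c)
    rw [pow_zero] at hs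
    rw [mul_zero, zero_add, add_comm (1 : ℝ), ← hs, mul_sum]
    apply sum_congr rfl
    intro x _
    have : wt r i c (c + x) = ((1 - r ^ i)⁻¹) ^ x := by
      rw [wt]
      split_ifs with h
      · have : x = 0 := by omega
        subst this
        simp
      · rw [show c + x - c = x by omega, inv_pow]
    rw [this, mul_add, pow_add, pow_mul, pow_mul, mul_pow]
    ring
  rw [h1, h2, add_comm]

theorem cc_eq {j i : ℕ} (hi : 1 ≤ i) (hij : i ≤ j) : cc j i = Nat.log2 (j / i) + 1 := by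
  rw [cc, if_neg (by omega), Nat.log2_eq_log_two]

theorem log2_lt {M : ℕ} (hM : 1 ≤ M) : Nat.log2 M + 1 ≤ M := by
  rw [Nat.log2_eq_log_two]
  have := Nat.log_lt_self 2 (x := M) (by omega)
  omega

theorem fac_ub {j i R Q : ℕ} {r q : ℝ} (hi : 1 ≤ i) (hij : i ≤ j) (hR : UB (r ^ i) R)
    (hR2 : R < 18446744073709551616) (hQ : UB (q ^ i) Q) :
    UB (∑ m ∈ range (j / i + 1), wt r i (cc j i) m * q ^ (i * m)) (fac j i R Q) := by
  have hM : 1 ≤ j / i := (Nat.one_le_div_iff (by omega)).2 hij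
  have hf : fac j i R Q = hor Q (Nat.add 18446744073709551616 R) (Nat.log2 (j / i) + 1)
      (Nat.add 18446744073709551616 R)
      (Nat.add 18446744073709551616 (geo (mulU Q (Nat.succ
        (Nat.div 340282366920938463463374607431768211456 (Nat.sub 18446744073709551616 R))))
        (j / i - (Nat.log2 (j / i) + 1)) 0)) := by
    rw [fac]
    repeat rw [fz_eq]
    rfl
  rw [hf, cc_eq hi hij, wt_sum _ _ _ _ _ (log2_lt hM)]
  have hD : UB ((1 - r ^ i)⁻¹) (Nat.succ
        (Nat.div 340282366920938463463374607431768211456 (Nat.sub 18446744073709551616 R))) := by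
    have hlt : (0 : ℝ) < 18446744073709551616 - R := by
      have : (R : ℝ) < 18446744073709551616 := by exact_mod_cast hR2
      linarith
    have h1 : (18446744073709551616 - (R : ℝ)) / 18446744073709551616 ≤ 1 - r ^ i := by
      rw [div_le_iff₀ (by norm_num)]
      have := hR.2
      nlinarith
    have hpos : (0 : ℝ) < 1 - r ^ i := lt_of_lt_of_le (div_pos hlt (by norm_num)) h1
    refine ⟨inv_nonneg.2 hpos.le, ?_⟩
    have e : (Nat.sub 18446744073709551616 R : ℕ) = 18446744073709551616 - R := rfl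
    have hc : ((18446744073709551616 - R : ℕ) : ℝ) = 18446744073709551616 - R := by
      rw [Nat.cast_sub hR2.le]
      norm_num
    show _ ≤ ((340282366920938463463374607431768211456 / (18446744073709551616 - R) + 1 : ℕ) : ℝ)
    refine le_trans ?_ (div_add_one _ _ (by omega))
    rw [hc, le_div_iff₀ hlt]
    have : (1 - r ^ i)⁻¹ ≤ 18446744073709551616 / (18446744073709551616 - (R : ℝ)) := by
      rw [inv_le_comm₀ hpos (div_pos (by norm_num) hlt), inv_div]
      exact h1
    calc (1 - r ^ i)⁻¹ * 18446744073709551616 * (18446744073709551616 - (R : ℝ))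
        ≤ 18446744073709551616 / (18446744073709551616 - (R : ℝ)) * 18446744073709551616 *
          (18446744073709551616 - (R : ℝ)) := by gcongr
      _ = 18446744073709551616 * 18446744073709551616 := by field_simp
      _ = _ := by norm_num
  have hA : UB (1 + r ^ i) (Nat.add 18446744073709551616 R) := add_ub one_ub hR
  have hg := geo_ub (mulU_ub hQ hD) (j / i - (Nat.log2 (j / i) + 1)) 0 0 ⟨le_refl _, by norm_num⟩
  exact hor_ub hQ hA _ _ _ _ _ hA (add_ub one_ub hg)

theorem lp_ub {j r' q' : ℕ} {r q : ℝ} (hr : UB r r') (hr2 : r' < 18446744073709551616) (hq : UB q q') :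
    ∀ (fuel i R Q acc : ℕ) (x : ℝ), 1 ≤ i → i + fuel ≤ j + 1 → UB (r ^ i) R → 1 ≤ R →
    R < 18446744073709551616 → UB (q ^ i) Q → UB x acc →
    UB (x * ∏ t ∈ range fuel, ∑ m ∈ range (j / (i + t) + 1), wt r (i + t) (cc j (i + t)) m *
      q ^ ((i + t) * m)) (lp j r' q' fuel i R Q acc) := by
  intro fuel
  induction fuel with
  | zero => intro i R Q acc x _ _ _ _ _ _ h; rw [lp_zero]; simpa using h
  | succ n ih =>
    intro i R Q acc x hi hle hR hR1 hR2 hQ hx
    have e : lp j r' q' (n + 1) i R Q acc =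
        lp j r' q' n (Nat.succ i) (mulU R r') (mulU Q q') (mulU acc (fac j i R Q)) := by
      rw [lp_succ, fz_eq, fz_eq, fz_eq]
    rw [e, prod_range_succ', add_zero]
    have h1 := mulU_ub hx (fac_ub (j := j) hi (by omega) hR hR2 hQ)
    have h2 := ih (i + 1) (mulU R r') (mulU Q q') _ _ (by omega) (by omega)
      (by rw [pow_succ]; exact mulU_ub hR hr) (mulU_pos _ _)
      (lt_of_le_of_lt (mulU_le hr2 hR1) hR2) (by rw [pow_succ]; exact mulU_ub hQ hq) h1
    convert h2 using 1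
    have : ∀ t, i + 1 + t = i + (t + 1) := by intro t; omega
    simp only [this]
    ring

theorem pw_ub {A : ℕ} {Ar : ℝ} (hA : UB Ar A) (n : ℕ) : UB (Ar ^ n) (pw A n) := by
  induction n with
  | zero => rw [pw_zero]; simpa using one_ub
  | succ n ih =>
    have e : pw A (n + 1) = mulU (pw A n) A := by
      rw [pw_succ, fz_eq]
    rw [e, pow_succ]
    exact mulU_ub ih hA

theorem val_ub {j r' q' : ℕ} {r q : ℝ} (hj : 1 ≤ j) (hr : UB r r') (hr1 : 1 ≤ r')
    (hr2 : r' < 18446744073709551616) (hq : UB q q') :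
    UB ((1 + r) ^ cc j 1 * ∏ i ∈ Icc 2 j, ∑ m ∈ range (j / i + 1), wt r i (cc j i) m * q ^ (i * m))
      (val j r' q') := by
  have e : val j r' q' = lp j r' q' (Nat.sub j 1) 2 (mulU r' r') (mulU q' q')
      (pw (Nat.add 18446744073709551616 r') (Nat.succ (Nat.log2 j))) := by
    rw [val, fz_eq, fz_eq, fz_eq]
  rw [e]
  have h1 : UB ((1 + r) ^ cc j 1) (pw (Nat.add 18446744073709551616 r') (Nat.succ (Nat.log2 j))) := by
    have := pw_ub (add_ub one_ub hr) (Nat.log2 j + 1)
    rw [cc_eq (le_refl 1) hj, Nat.div_one]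
    exact this
  have h2 := lp_ub (j := j) hr hr2 hq (j - 1) 2 (mulU r' r') (mulU q' q') _ _ (by omega) (by omega)
    (by rw [pow_two]; exact mulU_ub hr hr) (mulU_pos _ _) (lt_of_le_of_lt (mulU_le hr2 hr1) hr2)
    (by rw [pow_two]; exact mulU_ub hq hq) h1
  have hI : Icc 2 j = Ico 2 (j + 1) := by ext; simp
  rw [hI, prod_Ico_eq_prod_range, show j + 1 - 2 = j - 1 by omega]
  exact h2

theorem chkj_spec {r q G a : ℕ} : ∀ n : ℕ, chkj r q G a n = true → ∀ k < n, val (a + k) r q ≤ G := by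
  intro n
  induction n with
  | zero => intro _ k hk; omega
  | succ n ih =>
    intro h k hk
    have e : chkj r q G a (n + 1) = Bool.rec false (chkj r q G a n) (Nat.ble (val (Nat.add a n) r q) G) :=
      rfl
    rw [e] at h
    rcases hb : Nat.ble (val (Nat.add a n) r q) G with _ | _
    · rw [hb] at h
      exact absurd h (by simp)
    · rw [hb] at h
      rcases Nat.lt_succ_iff_lt_or_eq.1 hk with h' | h'
      · exact ih h k h'
      · subst h'
        exact Nat.le_of_ble_eq_true hb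

theorem sca_ub (a : ℕ) : UB ((a : ℝ) / 1000) (sca a) := by
  refine ⟨by positivity, ?_⟩
  show _ ≤ ((a * 18446744073709551616 / 1000 + 1 : ℕ) : ℝ)
  refine le_trans ?_ (div_add_one _ _ (by norm_num))
  push_cast
  exact le_of_eq (by ring)

theorem sca_lt {a : ℕ} (h : a ≤ 999) : sca a < 18446744073709551616 := by
  show a * 18446744073709551616 / 1000 + 1 < _
  omega

theorem chk_spec {e : ℕ × ℕ × ℕ × ℕ × ℕ} (h : chk e = true) : ∀ j : ℕ, e.1 ≤ j + 2 → j ≤ e.2.1 →
    (1 + (e.2.2.1 : ℝ) / 1000) ^ cc j 1 *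
      ∏ i ∈ Icc 2 j, ∑ m ∈ range (j / i + 1),
        wt ((e.2.2.1 : ℝ) / 1000) i (cc j i) m * ((e.2.2.2.1 : ℝ) / 1000) ^ (i * m) ≤
      (e.2.2.2.2 : ℝ) / 65536 := by
  intro j h1 h2
  rw [chk] at h
  rcases hb : (Nat.ble 4 e.1 && Nat.ble e.2.2.1 999) with _ | _
  · rw [hb] at h
    exact absurd h (by simp)
  · rw [hb] at h
    rw [Bool.and_eq_true] at hb
    have h4 : 4 ≤ e.1 := Nat.le_of_ble_eq_true hb.1
    have h9 : e.2.2.1 ≤ 999 := Nat.le_of_ble_eq_true hb.2
    have hk := chkj_spec _ h (j - (e.1 - 2)) (by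
      show _ < (e.2.1 + 3) - e.1
      omega)
    have hj : Nat.sub e.1 2 + (j - (e.1 - 2)) = j := by
      show e.1 - 2 + _ = _
      omega
    rw [hj] at hk
    have hv := val_ub (j := j) (by omega) (sca_ub e.2.2.1) (by show 1 ≤ _ + 1; omega) (sca_lt h9)
      (sca_ub e.2.2.2.1)
    have h5 := hv.2
    have h6 : ((val j (sca e.2.2.1) (sca e.2.2.2.1) : ℕ) : ℝ) ≤ (e.2.2.2.2 : ℝ) * 281474976710656 := by
      have : val j (sca e.2.2.1) (sca e.2.2.2.1) ≤ e.2.2.2.2 * 281474976710656 := hk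
      exact_mod_cast this
    rw [le_div_iff₀ (by norm_num)]
    have h7 := h5.trans h6
    nlinarith

set_option maxRecDepth 100000 in
theorem chk_all : List.all ktab chk = true := by decide +kernel

theorem KTAB_thm : KTabStmt ktab := by
  intro e he
  exact chk_spec (List.all_eq_true.1 chk_all e he)

end Pool.Agent.H28.UM.KTAB
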