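import Pool.Agent.H37.UM.Stmts

/-!
# Project UM, module LBA: lower bound for the differences of the coefficients of `T N`
-/

set_option autoImplicit false

namespace Pool.Agent.H28.UM.LBA

open PowerSeries Finset Pool.Agent.H37.UM

/-- the atoms of the products -/
noncomputable def b (i : ℕ) : ℤ⟦X⟧ := if Even i then 1 + X ^ i else iv i

/-- the pairs `(i, c)` with `2 ^ c * i ≤ N` -/
def Pr (N : ℕ) : Finset (ℕ × ℕ) :=
  ((Icc 1 N) ×ˢ (range (N + 1))).filter (fun p => 2 ^ p.2 * p.1 ≤ N)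

theorem mem_Pr {N i c : ℕ} : (i, c) ∈ Pr N ↔ 1 ≤ i ∧ 2 ^ c * i ≤ N := by
  simp only [Pr, mem_filter, mem_product, mem_Icc, mem_range]
  constructor
  · rintro ⟨⟨⟨h1, _⟩, _⟩, h2⟩
    exact ⟨h1, h2⟩
  · rintro ⟨h1, h2⟩
    have h3 : c < 2 ^ c := Nat.lt_two_pow_self
    refine ⟨⟨⟨h1, ?_⟩, ?_⟩, h2⟩
    · calc i = 1 * i := (one_mul i).symm
        _ ≤ 2 ^ c * i := Nat.mul_le_mul_right _ Nat.one_le_two_pow
        _ ≤ N := h2
    · have : 2 ^ c * 1 ≤ N := le_trans (Nat.mul_le_mul_left _ h1) h2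
      omega

theorem val_mul {c i : ℕ} (hi : 1 ≤ i) : padicValNat 2 (2 ^ c * i) = c + padicValNat 2 i := by
  rw [padicValNat.mul (by positivity) (by omega), padicValNat.prime_pow]

theorem F_eq (hOP : OPStmt) {m : ℕ} (hm : 1 ≤ m) :
    F m = ∏ c ∈ range (padicValNat 2 m + 1), b (m / 2 ^ c) := by
  obtain ⟨h1, h2, h3, h4⟩ := hOP.1 m hm
  set v := padicValNat 2 m with hv
  rw [prod_range_succ, F, mul_comm]
  congr 1
  · rw [← prod_range_reflect, ← hv]
    apply prod_congr rfl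
    intro a ha
    have ha' : a < v := mem_range.1 ha
    have e : m / 2 ^ a = 2 ^ (v - a) * op m := by
      apply Nat.div_eq_of_eq_mul_right (by positivity)
      rw [← mul_assoc, ← pow_add, show a + (v - a) = v by omega]
      exact h4
    rw [e, b, if_pos, show v - 1 - a + 1 = v - a by omega]
    exact Even.mul_right ((even_two).pow_of_ne_zero (by omega)) _
  · have e : m / 2 ^ v = op m := rfl
    rw [e, b, if_neg (Nat.not_even_iff_odd.2 h1)]

theorem T_eq (hOP : OPStmt) (N : ℕ) : T N = ∏ p ∈ Pr N, b p.1 := by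
  rw [T, U]
  have : ∏ m ∈ Ioc 0 N, F m = ∏ m ∈ Ioc 0 N, ∏ c ∈ range (padicValNat 2 m + 1), b (m / 2 ^ c) := by
    apply prod_congr rfl
    intro m hm
    exact F_eq hOP (mem_Ioc.1 hm).1
  rw [this, prod_sigma']
  have hd : ∀ m c : ℕ, c < padicValNat 2 m + 1 → 2 ^ c * (m / 2 ^ c) = m := by
    intro m c hc
    apply Nat.mul_div_cancel'
    exact dvd_trans (pow_dvd_pow 2 (by omega)) pow_padicValNat_dvd
  refine prod_bij' (fun x _ => (x.1 / 2 ^ x.2, x.2)) (fun p _ => ⟨2 ^ p.2 * p.1, p.2⟩) ?_ ?_ ?_ ?_ ?_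
  · rintro ⟨m, c⟩ h
    simp only [mem_sigma, mem_Ioc, mem_range] at h
    have e := hd m c h.2
    rw [mem_Pr]
    refine ⟨?_, ?_⟩
    · rcases Nat.eq_zero_or_pos (m / 2 ^ c) with h0 | h0
      · rw [h0, mul_zero] at e
        omega
      · exact h0
    · show 2 ^ c * (m / 2 ^ c) ≤ N
      rw [e]
      exact h.1.2
  · rintro ⟨i, c⟩ h
    rw [mem_Pr] at h
    simp only [mem_sigma, mem_Ioc, mem_range]
    refine ⟨⟨Nat.mul_pos (by positivity) h.1, h.2⟩, ?_⟩
    rw [val_mul h.1]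
    omega
  · rintro ⟨m, c⟩ h
    simp only [mem_sigma, mem_Ioc, mem_range] at h
    have e := hd m c h.2
    simp only
    rw [e]
  · rintro ⟨i, c⟩ h
    simp only [Prod.mk.injEq, and_true]
    exact Nat.mul_div_cancel_left _ (by positivity)
  · rintro ⟨m, c⟩ h
    rfl

theorem coeff_iv (n k : ℕ) : coeff k (iv n) = if k < n then (1 : ℤ) else 0 := by
  rw [iv, map_sum]
  simp only [coeff_X_pow]
  rw [sum_ite_eq]
  simp

theorem b_nonneg (i k : ℕ) : 0 ≤ coeff k (b i) := by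
  rw [b]
  split_ifs
  · rw [map_add, coeff_one, coeff_X_pow]
    split_ifs <;> norm_num
  · rw [coeff_iv]
    split_ifs <;> norm_num

theorem b_zero {i : ℕ} (hi : 1 ≤ i) : coeff 0 (b i) = 1 := by
  rw [b]
  split_ifs
  · rw [map_add, coeff_one, coeff_X_pow, if_pos rfl, if_neg (by omega)]
    norm_num
  · rw [coeff_iv, if_pos (by omega)]

theorem mul_nonneg' {f g : ℤ⟦X⟧} (hf : ∀ k, 0 ≤ coeff k f) (hg : ∀ k, 0 ≤ coeff k g) (k : ℕ) :
    0 ≤ coeff k (f * g) := by
  rw [coeff_mul]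
  exact sum_nonneg fun p _ => mul_nonneg (hf _) (hg _)

theorem prod_nonneg' (s : Finset (ℕ × ℕ)) (k : ℕ) : 0 ≤ coeff k (∏ p ∈ s, b p.1) := by
  induction s using Finset.induction_on generalizing k with
  | empty =>
    rw [prod_empty, coeff_one]
    split_ifs <;> norm_num
  | insert a s ha ih =>
    rw [prod_insert ha]
    exact mul_nonneg' (b_nonneg _) ih k

theorem prod_zero' (s : Finset (ℕ × ℕ)) (hs : ∀ p ∈ s, 1 ≤ p.1) : coeff 0 (∏ p ∈ s, b p.1) = 1 := by
  rw [coeff_zero_eq_constantCoeff_apply, map_prod]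
  apply prod_eq_one
  intro p hp
  rw [← coeff_zero_eq_constantCoeff_apply]
  exact b_zero (hs p hp)

/-- the product of two paired atoms -/
theorem pair_coeff {i : ℕ} (hi : Odd i) (hi3 : 3 ≤ i) (j : ℕ) :
    coeff j (b i * b (i - 1)) =
      (if j < 2 * i - 1 then (1 : ℤ) else 0) + if j = i - 1 then 1 else 0 := by
  have h1 : Even (i - 1) := by
    obtain ⟨t, ht⟩ := hi
    exact ⟨t, by omega⟩
  rw [b, if_neg (Nat.not_even_iff_odd.2 hi), b, if_pos h1, mul_add, mul_one, map_add, coeff_iv,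
    coeff_mul_X_pow']
  by_cases h2 : i - 1 ≤ j
  · rw [if_pos h2, coeff_iv]
    by_cases h3 : j = i - 1
    · subst h3
      rw [if_pos (by omega), if_pos (by omega), if_pos (by omega), if_pos rfl]
    · by_cases h4 : j < 2 * i - 1
      · rw [if_neg (by omega), if_pos (by omega), if_pos h4, if_neg h3]
        norm_num
      · rw [if_neg (by omega), if_neg (by omega), if_neg h4, if_neg h3]
  · rw [if_neg h2]
    rw [if_pos (by omega), if_pos (by omega), if_neg (by omega)]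

/-- coefficients up to `k` are at least those of `(1 - X)⁻¹ ^ (m + 1)` -/
def Big (k m : ℕ) (f : ℤ⟦X⟧) : Prop := ∀ j ≤ k, ((m + j).choose j : ℤ) ≤ coeff j f

theorem hockey (m j : ℕ) : ∑ i ∈ range (j + 1), ((m + i).choose i : ℤ) = ((m + 1 + j).choose j : ℤ) := by
  induction j with
  | zero => simp
  | succ j ih =>
    rw [sum_range_succ, ih, show m + 1 + (j + 1) = (m + 1 + j) + 1 by omega, Nat.choose_succ_succ',
      show m + (j + 1) = m + 1 + j by omega]
    push_cast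
    ring

theorem big_step {k m : ℕ} {f g : ℤ⟦X⟧} (hf : Big k m f) (hg : ∀ j ≤ k, 1 ≤ coeff j g) :
    Big k (m + 1) (f * g) := by
  intro j hj
  rw [← hockey, coeff_mul, Nat.sum_antidiagonal_eq_sum_range_succ (fun a c => coeff a f * coeff c g)]
  apply sum_le_sum
  intro i hi
  have hi' : i ≤ j := Nat.lt_succ_iff.1 (mem_range.1 hi)
  have h1 := hf i (by omega)
  have h2 := hg (j - i) (by omega)
  have h3 : (0 : ℤ) ≤ ((m + i).choose i : ℤ) := by positivity
  nlinarith

theorem coeff_one_sub_mul (f : ℤ⟦X⟧) (k : ℕ) :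
    coeff k ((1 - X) * f) = coeff k f - if k = 0 then 0 else coeff (k - 1) f := by
  rw [sub_mul, one_mul, map_sub]
  congr 1
  cases k with
  | zero => simp
  | succ n => rw [coeff_succ_X_mul]; simp

theorem pair_eq {i : ℕ} (hi : Odd i) (hi3 : 3 ≤ i) :
    b i * b (i - 1) = iv (2 * i - 1) + X ^ (i - 1) := by
  ext j
  rw [pair_coeff hi hi3, map_add, coeff_iv, coeff_X_pow]

theorem one_sub_iv (n : ℕ) : (1 - X) * iv n = 1 - X ^ n := by
  rw [mul_comm, iv]
  exact geom_sum_mul_neg X n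

/-- two paired atoms -/
theorem big_two {k i i' : ℕ} (hi : Odd i) (hi3 : 3 ≤ i) (hk : k < 2 * i - 1) (hi' : Odd i') (hi3' : 3 ≤ i')
    (hk' : k < 2 * i' - 1) : Big k 0 ((1 - X) * ((b i * b (i - 1)) * (b i' * b (i' - 1)))) := by
  intro j hj
  have e : (1 - X) * ((b i * b (i - 1)) * (b i' * b (i' - 1))) =
      (b i' * b (i' - 1)) - X ^ (2 * i - 1) * (b i' * b (i' - 1)) + X ^ (i - 1) -
        X ^ (i - 1 + (2 * i' - 1)) + X ^ (i - 1 + (i' - 1)) - X ^ (i - 1 + i') := by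
    have e1 : X ^ i' = (X : ℤ⟦X⟧) * X ^ (i' - 1) := by
      rw [← pow_succ', show i' - 1 + 1 = i' by omega]
    rw [pair_eq hi hi3, pair_eq hi' hi3']
    have h1 := one_sub_iv (2 * i - 1)
    have h2 := one_sub_iv (2 * i' - 1)
    rw [pow_add, pow_add, pow_add, e1]
    linear_combination (iv (2 * i' - 1) + X ^ (i' - 1)) * h1 + X ^ (i - 1) * h2
  rw [e]
  simp only [map_sub, map_add, coeff_X_pow_mul', coeff_X_pow]
  rw [if_neg (show ¬ 2 * i - 1 ≤ j by omega), if_neg (show ¬ j = i - 1 + (2 * i' - 1) by omega),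
    if_neg (show ¬ j = i - 1 + i' by omega), pair_coeff hi' hi3', if_pos (show j < 2 * i' - 1 by omega),
    zero_add, Nat.choose_self]
  split_ifs <;> norm_num

theorem big_prod {k : ℕ} : ∀ (s : ℕ) (A : Finset (ℕ × ℕ)), A.card = s + 2 →
    (∀ p ∈ A, Odd p.1 ∧ 3 ≤ p.1 ∧ k < 2 * p.1 - 1) →
    Big k s ((1 - X) * ∏ p ∈ A, b p.1 * b (p.1 - 1)) := by
  intro s
  induction s with
  | zero =>
    intro A hA hp
    obtain ⟨x, y, hxy, rfl⟩ := Finset.card_eq_two.1 hA
    rw [prod_pair hxy]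
    obtain ⟨h1, h2, h3⟩ := hp x (by simp)
    obtain ⟨h4, h5, h6⟩ := hp y (by simp)
    exact big_two h1 h2 h3 h4 h5 h6
  | succ s ih =>
    intro A hA hp
    obtain ⟨x, hx⟩ : A.Nonempty := by
      rw [← card_pos]
      omega
    have h1 := ih (A.erase x) (by rw [card_erase_of_mem hx, hA]; omega)
      (fun p h => hp p (mem_of_mem_erase h))
    rw [← prod_erase_mul A _ hx, ← mul_assoc]
    obtain ⟨h2, h3, h4⟩ := hp x hx
    apply big_step h1
    intro j hj
    rw [pair_coeff h2 h3, if_pos (by omega)]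
    split_ifs <;> norm_num

theorem LBA_thm (hOP : OPStmt) : LBAStmt := by
  intro N k s hs h3
  rcases Nat.eq_zero_or_pos k with hk | hk
  · subst hk
    rw [df, Nat.choose_zero_right, T_eq hOP, coeff_one_sub_mul, if_pos rfl, sub_zero, prod_zero']
    · norm_num
    · rintro ⟨i, c⟩ h
      exact (mem_Pr.1 h).1
  set A := (Pr N).filter (fun p => Odd p.1 ∧ k < 2 * p.1 - 1) with hA
  set A' := A.image (fun p : ℕ × ℕ => (p.1 - 1, p.2)) with hA'
  have hmem : ∀ p ∈ A, Odd p.1 ∧ 3 ≤ p.1 ∧ k < 2 * p.1 - 1 := by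
    intro p hp
    rw [hA, mem_filter] at hp
    refine ⟨hp.2.1, ?_, hp.2.2⟩
    obtain ⟨t, ht⟩ := hp.2.1
    have := hp.2.2
    omega
  have hinj : Set.InjOn (fun p : ℕ × ℕ => (p.1 - 1, p.2)) (A : Set (ℕ × ℕ)) := by
    rintro ⟨i, c⟩ h ⟨i', c'⟩ h' he
    have h1 := (hmem _ h).2.1
    have h2 := (hmem _ h').2.1
    simp only [Prod.mk.injEq] at he h1 h2 ⊢
    omega
  have hdis : Disjoint A A' := by
    rw [disjoint_left]
    intro p hp hp'
    rw [hA', mem_image] at hp'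
    obtain ⟨p', h1, h2⟩ := hp'
    have h3 := (hmem _ hp).1
    have h4 := hmem _ h1
    rw [← h2] at h3
    simp only at h3
    obtain ⟨t, ht⟩ := h3
    obtain ⟨u, hu⟩ := h4.1
    have := h4.2.1
    omega
  have hsub : A ∪ A' ⊆ Pr N := by
    apply union_subset (filter_subset _ _)
    intro p hp
    rw [hA', mem_image] at hp
    obtain ⟨⟨i, c⟩, h1, h2⟩ := hp
    have h4 := hmem _ h1
    have h5 := mem_Pr.1 (mem_filter.1 h1).1
    rw [← h2, mem_Pr]
    simp only at h4 ⊢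
    exact ⟨by omega, le_trans (Nat.mul_le_mul_left _ (by omega)) h5.2⟩
  have hcard : A.card = s := by
    rw [hs]
    apply Finset.card_bij (fun p _ => 2 ^ p.2 * p.1)
    · rintro ⟨i, c⟩ h
      have h4 := hmem _ h
      have h5 := mem_Pr.1 (mem_filter.1 h).1
      have hop : op (2 ^ c * i) = i := by
        rw [op, val_mul h5.1, padicValNat.eq_zero_of_not_dvd (fun hd => ?_), add_zero,
          Nat.mul_div_cancel_left _ (by positivity)]
        obtain ⟨t, ht⟩ := h4.1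
        simp only at ht
        omega
      rw [mem_filter, mem_Icc]
      simp only
      rw [hop]
      exact ⟨⟨Nat.mul_pos (by positivity) h5.1, h5.2⟩, h4.2.2⟩
    · rintro ⟨i, c⟩ h ⟨i', c'⟩ h' he
      have h4 := hmem _ h
      have h4' := hmem _ h'
      simp only at he h4 h4'
      have v1 : padicValNat 2 (2 ^ c * i) = c := by
        rw [val_mul (by omega), padicValNat.eq_zero_of_not_dvd (fun hd => ?_), add_zero]
        obtain ⟨t, ht⟩ := h4.1
        omega
      have v2 : padicValNat 2 (2 ^ c' * i') = c' := by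
        rw [val_mul (by omega), padicValNat.eq_zero_of_not_dvd (fun hd => ?_), add_zero]
        obtain ⟨t, ht⟩ := h4'.1
        omega
      have hc : c = c' := by rw [← v1, ← v2, he]
      subst hc
      have := Nat.eq_of_mul_eq_mul_left (by positivity) he
      rw [this]
    · intro m hm
      rw [mem_filter, mem_Icc] at hm
      obtain ⟨h1, h2, h3, h4⟩ := hOP.1 m hm.1.1
      refine ⟨(op m, padicValNat 2 m), ?_, ?_⟩
      · rw [hA, mem_filter, mem_Pr, ← h4]
        exact ⟨⟨h2, hm.1.2⟩, h1, hm.2⟩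
      · exact h4.symm
  have hT : T N = (∏ p ∈ A, b p.1 * b (p.1 - 1)) * ∏ p ∈ Pr N \ (A ∪ A'), b p.1 := by
    rw [T_eq hOP, ← prod_sdiff hsub, mul_comm, prod_union hdis, hA', prod_image hinj, ← prod_mul_distrib]
  rw [df, hT, ← mul_assoc, coeff_mul]
  have hbig := big_prod (k := k) (s - 2) A (by omega) hmem
  have hR0 : coeff 0 (∏ p ∈ Pr N \ (A ∪ A'), b p.1) = 1 := by
    apply prod_zero'
    rintro ⟨i, c⟩ h
    exact (mem_Pr.1 (mem_sdiff.1 h).1).1
  have hmemk : (k, 0) ∈ antidiagonal k := by simp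
  refine le_trans ?_ (single_le_sum (f := fun p : ℕ × ℕ => coeff p.1 ((1 - X) * ∏ p ∈ A, b p.1 * b (p.1 - 1)) *
    coeff p.2 (∏ p ∈ Pr N \ (A ∪ A'), b p.1)) ?_ hmemk)
  · simp only
    rw [hR0, mul_one]
    exact hbig k le_rfl
  · rintro ⟨x, y⟩ hxy
    have hx : x ≤ k := by
      rw [HasAntidiagonal.mem_antidiagonal] at hxy
      simp only at hxy
      omega
    exact mul_nonneg (le_trans (by positivity) (hbig x hx)) (prod_nonneg' _ _)

end Pool.Agent.H28.UM.LBA
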