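import Pool.Agent.H37.UM.Stmts

/-!
# Project UM, module VA: variances
-/

set_option autoImplicit false

namespace Pool.Agent.H28.UM.VA

open Finset Pool.Agent.H37.UM

/-! ### The variance functional on polynomials -/

noncomputable def m1 (r : ℝ) (p : Polynomial ℝ) : ℝ := (Polynomial.X * Polynomial.derivative p).eval r

noncomputable def m2 (r : ℝ) (p : Polynomial ℝ) : ℝ :=
  (Polynomial.X * Polynomial.derivative (Polynomial.X * Polynomial.derivative p)).eval r

noncomputable def V (r : ℝ) (p : Polynomial ℝ) : ℝ := m2 r p / p.eval r - (m1 r p / p.eval r) ^ 2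

theorem m1_mul (r : ℝ) (p q : Polynomial ℝ) :
    m1 r (p * q) = m1 r p * q.eval r + p.eval r * m1 r q := by
  simp only [m1, Polynomial.derivative_mul, Polynomial.eval_mul, Polynomial.eval_add]
  ring

theorem m2_mul (r : ℝ) (p q : Polynomial ℝ) :
    m2 r (p * q) = m2 r p * q.eval r + 2 * m1 r p * m1 r q + p.eval r * m2 r q := by
  simp only [m1, m2, Polynomial.derivative_mul, Polynomial.eval_mul, Polynomial.eval_add,
    Polynomial.derivative_add]
  ring

theorem V_mul {r : ℝ} {p q : Polynomial ℝ} (hp : p.eval r ≠ 0) (hq : q.eval r ≠ 0) :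
    V r (p * q) = V r p + V r q := by
  simp only [V, m1_mul, m2_mul, Polynomial.eval_mul]
  field_simp
  ring

theorem xd_pow (L : ℕ) :
    (Polynomial.X : Polynomial ℝ) * Polynomial.derivative (Polynomial.X ^ L) =
      Polynomial.C (L : ℝ) * Polynomial.X ^ L := by
  rw [Polynomial.derivative_X_pow]
  cases L with
  | zero => simp
  | succ n =>
    simp only [Nat.cast_add, Nat.cast_one, Nat.add_sub_cancel]
    rw [pow_succ]
    ring

theorem m1_pow (r : ℝ) (L : ℕ) : m1 r (Polynomial.X ^ L) = L * r ^ L := by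
  rw [m1, xd_pow]
  simp

theorem m2_pow (r : ℝ) (L : ℕ) : m2 r (Polynomial.X ^ L) = L ^ 2 * r ^ L := by
  rw [m2, xd_pow, Polynomial.derivative_C_mul, mul_left_comm, xd_pow]
  simp
  ring

theorem m1_add (r : ℝ) (p q : Polynomial ℝ) : m1 r (p + q) = m1 r p + m1 r q := by
  simp only [m1, Polynomial.derivative_add, mul_add, Polynomial.eval_add]

theorem m2_add (r : ℝ) (p q : Polynomial ℝ) : m2 r (p + q) = m2 r p + m2 r q := by
  simp only [m2, Polynomial.derivative_add, mul_add, Polynomial.eval_add]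

theorem m1_neg (r : ℝ) (p : Polynomial ℝ) : m1 r (-p) = -m1 r p := by
  simp [m1]

theorem m2_neg (r : ℝ) (p : Polynomial ℝ) : m2 r (-p) = -m2 r p := by
  simp [m2]
  ring

theorem m1_one (r : ℝ) : m1 r 1 = 0 := by simp [m1]

theorem m2_one (r : ℝ) : m2 r 1 = 0 := by simp [m2]

theorem V_one (r : ℝ) : V r 1 = 0 := by simp [V, m1_one, m2_one]

theorem V_one_sub {r : ℝ} {L : ℕ} (h : 1 - r ^ L ≠ 0) :
    V r (1 - Polynomial.X ^ L) = -((L : ℝ) ^ 2 * r ^ L / (1 - r ^ L) ^ 2) := by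
  have h1 : m1 r (1 - Polynomial.X ^ L) = -(L * r ^ L) := by
    rw [sub_eq_add_neg, m1_add, m1_neg, m1_pow, m1_one, zero_add]
  have h2 : m2 r (1 - Polynomial.X ^ L) = -(L ^ 2 * r ^ L) := by
    rw [sub_eq_add_neg, m2_add, m2_neg, m2_pow, m2_one, zero_add]
  rw [V, h1, h2]
  simp only [Polynomial.eval_sub, Polynomial.eval_one, Polynomial.eval_pow, Polynomial.eval_X]
  field_simp
  ring

theorem V_one_add {r : ℝ} {L : ℕ} (h : 1 + r ^ L ≠ 0) :
    V r (1 + Polynomial.X ^ L) = (L : ℝ) ^ 2 * r ^ L / (1 + r ^ L) ^ 2 := by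
  have h1 : m1 r (1 + Polynomial.X ^ L) = L * r ^ L := by
    rw [m1_add, m1_pow, m1_one, zero_add]
  have h2 : m2 r (1 + Polynomial.X ^ L) = L ^ 2 * r ^ L := by
    rw [m2_add, m2_pow, m2_one, zero_add]
  rw [V, h1, h2]
  simp only [Polynomial.eval_add, Polynomial.eval_one, Polynomial.eval_pow, Polynomial.eval_X]
  field_simp
  ring

/-! ### Geometric sums -/

/-- `[M]` at `r` -/
noncomputable def s (r : ℝ) (M : ℕ) : ℝ := ∑ i ∈ range M, r ^ i

theorem s_mul (r : ℝ) (M : ℕ) : (1 - r) * s r M = 1 - r ^ M := by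
  rw [mul_comm, s]
  exact geom_sum_mul_neg r M

theorem s_pos {r : ℝ} (hr : 0 < r) {M : ℕ} (hM : 1 ≤ M) : 0 < s r M := by
  apply sum_pos
  · intro i _
    positivity
  · exact ⟨0, mem_range.2 (by omega)⟩

theorem s_nonneg {r : ℝ} (hr : 0 < r) (M : ℕ) : 0 ≤ s r M := sum_nonneg fun i _ => by positivity

theorem q_step {r : ℝ} (hr : 0 < r) (hr1 : r < 1) (M : ℕ) :
    r * ((M : ℝ) + 1) ^ 2 * s r M ^ 2 ≤ (M : ℝ) ^ 2 * s r (M + 1) ^ 2 := by
  set ρ := √r with hρ
  have hρ0 : 0 ≤ ρ := Real.sqrt_nonneg r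
  have hρ2 : ρ ^ 2 = r := Real.sq_sqrt hr.le
  have hρ1 : ρ ≤ 1 := by
    rw [hρ, ← Real.sqrt_one]
    exact Real.sqrt_le_sqrt hr1.le
  have hsum : ∑ l ∈ range (2 * M), ρ ^ (l + 1) ≤ M * (1 + ρ ^ (2 * M + 1)) := by
    have h1 : ∑ l ∈ range (2 * M), ρ ^ (l + 1) = ∑ l ∈ range (2 * M), ρ ^ (2 * M - l) := by
      rw [← sum_range_reflect]
      apply sum_congr rfl
      intro l hl
      have := mem_range.1 hl
      rw [show 2 * M - 1 - l + 1 = 2 * M - l by omega]
    have h2 : ∑ l ∈ range (2 * M), ρ ^ (l + 1) + ∑ l ∈ range (2 * M), ρ ^ (2 * M - l) ≤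
        ∑ l ∈ range (2 * M), (1 + ρ ^ (2 * M + 1)) := by
      rw [← sum_add_distrib]
      apply sum_le_sum
      intro l hl
      have hl' := mem_range.1 hl
      have e : ρ ^ (2 * M + 1) = ρ ^ (l + 1) * ρ ^ (2 * M - l) := by
        rw [← pow_add, show l + 1 + (2 * M - l) = 2 * M + 1 by omega]
      have h3 : ρ ^ (l + 1) ≤ 1 := pow_le_one₀ hρ0 hρ1
      have h4 : ρ ^ (2 * M - l) ≤ 1 := pow_le_one₀ hρ0 hρ1
      rw [e]
      nlinarith
    rw [sum_const, card_range, nsmul_eq_mul] at h2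
    push_cast at h2
    linarith
  have hkey : ((M : ℝ) + 1) * ρ * s r M ≤ M * s r (M + 1) := by
    have h1r : 0 < 1 - r := by linarith
    have h5 : (1 - r) * (((M : ℝ) + 1) * ρ * s r M) ≤ (1 - r) * (M * s r (M + 1)) := by
      have e1 : (1 - r) * (((M : ℝ) + 1) * ρ * s r M) = (M + 1) * ρ * (1 - r ^ M) := by
        rw [← s_mul]; ring
      have e2 : (1 - r) * (M * s r (M + 1)) = M * (1 - r ^ (M + 1)) := by
        rw [← s_mul]; ring
      have e3 : ∑ l ∈ range (2 * M), ρ ^ (l + 1) * (1 - ρ) = ρ - ρ ^ (2 * M + 1) := by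
        have := geom_sum_mul_neg ρ (2 * M)
        rw [← sum_mul]
        have h6 : ∑ l ∈ range (2 * M), ρ ^ (l + 1) = ρ * ∑ l ∈ range (2 * M), ρ ^ l := by
          rw [mul_sum]
          apply sum_congr rfl
          intro l _
          rw [pow_succ]; ring
        rw [h6, mul_assoc, this]
        ring
      rw [← sum_mul] at e3
      have h7 : 0 ≤ 1 - ρ := by linarith
      have h8 := mul_le_mul_of_nonneg_right hsum h7
      rw [e3] at h8
      rw [e1, e2, ← hρ2, ← pow_mul, ← pow_mul]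
      have e4 : ρ ^ (2 * (M + 1)) = ρ * ρ ^ (2 * M + 1) := by ring
      have e5 : ρ * ρ ^ (2 * M) = ρ ^ (2 * M + 1) := by rw [← pow_succ']
      rw [e4]
      nlinarith
    exact le_of_mul_le_mul_left h5 h1r
  have h0 : 0 ≤ ((M : ℝ) + 1) * ρ * s r M := by
    have := s_nonneg hr M
    positivity
  have := pow_le_pow_left₀ h0 hkey 2
  calc r * ((M : ℝ) + 1) ^ 2 * s r M ^ 2 = (((M : ℝ) + 1) * ρ * s r M) ^ 2 := by
        rw [← hρ2]; ring
    _ ≤ (M * s r (M + 1)) ^ 2 := this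
    _ = _ := by ring

theorem q_mono {r : ℝ} (hr : 0 < r) (hr1 : r < 1) {d M : ℕ} (hdM : d ≤ M) :
    r ^ (M - d) * s r d ^ 2 * (M : ℝ) ^ 2 ≤ (d : ℝ) ^ 2 * s r M ^ 2 := by
  rcases Nat.eq_zero_or_pos d with h0 | h0
  · subst h0
    simp [s]
  · induction M, hdM using Nat.le_induction with
    | base => simp; ring_nf; exact le_refl _
    | succ M hM ih =>
      have hM0 : (0 : ℝ) < M := by
        have : 0 < M := by omega
        exact_mod_cast this
      have h1 := q_step hr hr1 M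
      have h2 : r ^ (M + 1 - d) = r * r ^ (M - d) := by
        rw [← pow_succ', show M - d + 1 = M + 1 - d by omega]
      rw [h2]
      push_cast
      have h3 : (M : ℝ) ^ 2 * (r * r ^ (M - d) * s r d ^ 2 * ((M : ℝ) + 1) ^ 2) ≤
          (M : ℝ) ^ 2 * ((d : ℝ) ^ 2 * s r (M + 1) ^ 2) := by
        calc (M : ℝ) ^ 2 * (r * r ^ (M - d) * s r d ^ 2 * ((M : ℝ) + 1) ^ 2)
            = (r ^ (M - d) * s r d ^ 2 * (M : ℝ) ^ 2) * (r * ((M : ℝ) + 1) ^ 2) := by ring
          _ ≤ ((d : ℝ) ^ 2 * s r M ^ 2) * (r * ((M : ℝ) + 1) ^ 2) :=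
              mul_le_mul_of_nonneg_right ih (by positivity)
          _ = (d : ℝ) ^ 2 * (r * ((M : ℝ) + 1) ^ 2 * s r M ^ 2) := by ring
          _ ≤ (d : ℝ) ^ 2 * ((M : ℝ) ^ 2 * s r (M + 1) ^ 2) :=
              mul_le_mul_of_nonneg_left h1 (by positivity)
          _ = _ := by ring
      exact le_of_mul_le_mul_left h3 (by positivity)

theorem L_id (r : ℝ) (M : ℕ) : (1 - r) ^ 2 * ∑ d ∈ range (M + 1), r ^ (M + 1 - d) * s r d ^ 2 =
    r * s r (M + 1) ^ 2 - r ^ 2 * s r M ^ 2 - (2 * M + 1) * r ^ (M + 1) := by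
  induction M with
  | zero => simp [s]
  | succ M ih =>
    have e : ∑ d ∈ range (M + 1 + 1), r ^ (M + 1 + 1 - d) * s r d ^ 2 =
        r * ∑ d ∈ range (M + 1), r ^ (M + 1 - d) * s r d ^ 2 + r * s r (M + 1) ^ 2 := by
      rw [sum_range_succ, mul_sum]
      congr 1
      · apply sum_congr rfl
        intro d hd
        have := mem_range.1 hd
        rw [show M + 1 + 1 - d = (M + 1 - d) + 1 by omega, pow_succ]
        ring
      · rw [show M + 1 + 1 - (M + 1) = 1 by omega, pow_one]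
    rw [e, mul_add, mul_left_comm, ih]
    have h1 : s r (M + 1 + 1) = s r (M + 1) + r ^ (M + 1) := by
      rw [s, s, sum_range_succ]
    have h2 : s r (M + 1) = s r M + r ^ M := by
      rw [s, s, sum_range_succ]
    have h3 := s_mul r M
    rw [h1, h2]
    push_cast
    linear_combination (-2 * r ^ 2 * r ^ M) * h3

theorem K_id (r : ℝ) (M : ℕ) : (1 - r) ^ 2 * ∑ d ∈ range M, ((M : ℝ) - d) * (r ^ (M - d) * s r d ^ 2) =
    r * s r M ^ 2 - (M : ℝ) ^ 2 * r ^ M := by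
  induction M with
  | zero => simp [s]
  | succ M ih =>
    have e : ∑ d ∈ range (M + 1), (((M + 1 : ℕ) : ℝ) - d) * (r ^ (M + 1 - d) * s r d ^ 2) =
        r * ∑ d ∈ range M, ((M : ℝ) - d) * (r ^ (M - d) * s r d ^ 2) +
          ∑ d ∈ range (M + 1), r ^ (M + 1 - d) * s r d ^ 2 := by
      have h0 : ∑ d ∈ range M, ((M : ℝ) - d) * (r ^ (M - d) * s r d ^ 2) =
          ∑ d ∈ range (M + 1), ((M : ℝ) - d) * (r ^ (M - d) * s r d ^ 2) := by
        rw [sum_range_succ]
        simp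
      rw [h0, mul_sum, ← sum_add_distrib]
      apply sum_congr rfl
      intro d hd
      have := mem_range.1 hd
      rw [show M + 1 - d = (M - d) + 1 by omega, pow_succ]
      push_cast
      ring
    rw [e, mul_add, mul_left_comm, ih, L_id]
    push_cast
    rw [pow_succ]
    ring

theorem sum_dd (M : ℕ) : ∑ d ∈ range M, ((M : ℝ) - d) * (d : ℝ) ^ 2 = (M : ℝ) ^ 2 * ((M : ℝ) ^ 2 - 1) / 12 := by
  have h : ∀ M : ℕ, ∑ d ∈ range M, (d : ℝ) ^ 2 = (M : ℝ) * (M - 1) * (2 * M - 1) / 6 := by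
    intro M
    induction M with
    | zero => simp
    | succ M ih => rw [sum_range_succ, ih]; push_cast; ring
  induction M with
  | zero => simp
  | succ M ih =>
    have e : ∑ d ∈ range (M + 1), (((M + 1 : ℕ) : ℝ) - d) * (d : ℝ) ^ 2 =
        ∑ d ∈ range M, ((M : ℝ) - d) * (d : ℝ) ^ 2 + ∑ d ∈ range (M + 1), (d : ℝ) ^ 2 := by
      have h0 : ∑ d ∈ range M, ((M : ℝ) - d) * (d : ℝ) ^ 2 =
          ∑ d ∈ range (M + 1), ((M : ℝ) - d) * (d : ℝ) ^ 2 := by
        rw [sum_range_succ]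
        simp
      rw [h0, ← sum_add_distrib]
      apply sum_congr rfl
      intro d _
      push_cast
      ring
    rw [e, ih, h]
    push_cast
    ring

theorem phi_le {r : ℝ} (hr : 0 < r) (hr1 : r < 1) {M : ℕ} (hM : 1 ≤ M) :
    r / (1 - r) ^ 2 - (M : ℝ) ^ 2 * r ^ M / (1 - r ^ M) ^ 2 ≤ ((M : ℝ) ^ 2 - 1) / 12 := by
  have h1r : 0 < 1 - r := by linarith
  have hs := s_pos hr hM
  have hM0 : (0 : ℝ) < M := by exact_mod_cast hM
  have e : r / (1 - r) ^ 2 - (M : ℝ) ^ 2 * r ^ M / (1 - r ^ M) ^ 2 =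
      (∑ d ∈ range M, ((M : ℝ) - d) * (r ^ (M - d) * s r d ^ 2)) / s r M ^ 2 := by
    rw [← s_mul]
    have h2 := K_id r M
    rw [eq_div_iff (by positivity)]
    have h3 : (r / (1 - r) ^ 2 - (M : ℝ) ^ 2 * r ^ M / ((1 - r) * s r M) ^ 2) * s r M ^ 2 =
        (r * s r M ^ 2 - (M : ℝ) ^ 2 * r ^ M) / (1 - r) ^ 2 := by
      field_simp
    rw [h3, ← h2]
    field_simp
  rw [e, div_le_iff₀ (by positivity)]
  have h4 : ∀ d ∈ range M, ((M : ℝ) - d) * (r ^ (M - d) * s r d ^ 2) ≤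
      ((M : ℝ) - d) * (d : ℝ) ^ 2 * (s r M ^ 2 / (M : ℝ) ^ 2) := by
    intro d hd
    have hd' := mem_range.1 hd
    have h5 := q_mono hr hr1 hd'.le
    have h6 : r ^ (M - d) * s r d ^ 2 ≤ (d : ℝ) ^ 2 * (s r M ^ 2 / (M : ℝ) ^ 2) := by
      rw [← mul_div_assoc, le_div_iff₀ (by positivity)]
      exact h5
    have h7 : (0 : ℝ) ≤ (M : ℝ) - d := by
      have : (d : ℝ) ≤ M := by exact_mod_cast hd'.le
      linarith
    rw [mul_assoc]
    exact mul_le_mul_of_nonneg_left h6 h7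
  refine le_trans (sum_le_sum h4) ?_
  rw [← sum_mul, sum_dd]
  apply le_of_eq
  field_simp

/-! ### The polynomials of the problem -/

noncomputable def Gz (M : ℕ) : Polynomial ℤ := ∑ i ∈ range M, Polynomial.X ^ i

noncomputable def Fz (m : ℕ) : Polynomial ℤ :=
  Gz (op m) * ∏ a ∈ range (padicValNat 2 m), (1 + Polynomial.X ^ (2 ^ (a + 1) * op m))

noncomputable def Tz (N : ℕ) : Polynomial ℤ := ∏ m ∈ Ioc 0 N, Fz m

theorem Fz_coe (m : ℕ) : Polynomial.coeToPowerSeries.ringHom (Fz m) = F m := by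
  simp only [Fz, F, iv, Gz, map_mul, map_sum, map_prod, map_add, map_one, map_pow]
  have : Polynomial.coeToPowerSeries.ringHom (Polynomial.X : Polynomial ℤ) = PowerSeries.X :=
    Polynomial.coe_X
  rw [this]

theorem Tz_coe (N : ℕ) : Polynomial.coeToPowerSeries.ringHom (Tz N) = T N := by
  rw [Tz, T, U, map_prod]
  exact prod_congr rfl fun m _ => Fz_coe m

theorem coeff_T (N i : ℕ) : PowerSeries.coeff i (T N) = (Tz N).coeff i := by
  rw [← Tz_coe]
  exact Polynomial.coeff_coe _ _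

noncomputable def Gr (M : ℕ) : Polynomial ℝ := ∑ i ∈ range M, Polynomial.X ^ i

noncomputable def Fr (m : ℕ) : Polynomial ℝ :=
  Gr (op m) * ∏ a ∈ range (padicValNat 2 m), (1 + Polynomial.X ^ (2 ^ (a + 1) * op m))

noncomputable def Tr (N : ℕ) : Polynomial ℝ := ∏ m ∈ Ioc 0 N, Fr m

theorem Fz_map (m : ℕ) : (Fz m).map (Int.castRingHom ℝ) = Fr m := by
  simp [Fz, Fr, Gz, Gr, Polynomial.map_sum, Polynomial.map_prod]

theorem Tz_map (N : ℕ) : (Tz N).map (Int.castRingHom ℝ) = Tr N := by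
  rw [Tz, Tr, Polynomial.map_prod]
  exact prod_congr rfl fun m _ => Fz_map m

theorem coeff_Tr (N i : ℕ) : ((PowerSeries.coeff i (T N) : ℤ) : ℝ) = (Tr N).coeff i := by
  rw [coeff_T, ← Tz_map, Polynomial.coeff_map]
  rfl

theorem Gr_eval (M : ℕ) (r : ℝ) : (Gr M).eval r = s r M := by
  simp [Gr, s, Polynomial.eval_finsetSum]

theorem Fr_eval (m : ℕ) (r : ℝ) : (Fr m).eval r = Fe m r := by
  rw [Fr, Polynomial.eval_mul, Gr_eval, Polynomial.eval_prod, Fe, s]
  simp

theorem Tr_eval (N : ℕ) (r : ℝ) : (Tr N).eval r = Te N r := by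
  rw [Tr, Polynomial.eval_prod, Te]
  have : Icc 1 N = Ioc 0 N := by ext; simp; omega
  rw [this]
  exact prod_congr rfl fun m _ => Fr_eval m r

theorem m1_sum (r : ℝ) (n : ℕ) (f : ℕ → Polynomial ℝ) :
    m1 r (∑ i ∈ range n, f i) = ∑ i ∈ range n, m1 r (f i) := by
  induction n with
  | zero => simp [m1]
  | succ n ih => rw [sum_range_succ, sum_range_succ, m1_add, ih]

theorem m2_sum (r : ℝ) (n : ℕ) (f : ℕ → Polynomial ℝ) :
    m2 r (∑ i ∈ range n, f i) = ∑ i ∈ range n, m2 r (f i) := by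
  induction n with
  | zero => simp [m2]
  | succ n ih => rw [sum_range_succ, sum_range_succ, m2_add, ih]

theorem m1_mono (r a : ℝ) (i : ℕ) : m1 r (Polynomial.C a * Polynomial.X ^ i) = i * (a * r ^ i) := by
  rw [m1_mul, m1_pow]
  simp [m1]
  ring

theorem m2_mono (r a : ℝ) (i : ℕ) : m2 r (Polynomial.C a * Polynomial.X ^ i) = i ^ 2 * (a * r ^ i) := by
  rw [m2_mul, m1_pow, m2_pow]
  simp [m1, m2]
  ring

theorem sum_m1 (r : ℝ) (p : Polynomial ℝ) {n : ℕ} (hn : p.natDegree < n) :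
    ∑ i ∈ range n, (i : ℝ) * (p.coeff i * r ^ i) = m1 r p := by
  conv_rhs => rw [Polynomial.as_sum_range_C_mul_X_pow' p hn]
  rw [m1_sum]
  exact sum_congr rfl fun i _ => (m1_mono r _ i).symm

theorem sum_m2 (r : ℝ) (p : Polynomial ℝ) {n : ℕ} (hn : p.natDegree < n) :
    ∑ i ∈ range n, (i : ℝ) ^ 2 * (p.coeff i * r ^ i) = m2 r p := by
  conv_rhs => rw [Polynomial.as_sum_range_C_mul_X_pow' p hn]
  rw [m2_sum]
  exact sum_congr rfl fun i _ => (m2_mono r _ i).symm

theorem Fr_pos {m : ℕ} (hOP : OPStmt) (hm : 1 ≤ m) {r : ℝ} (hr : 0 < r) : 0 < (Fr m).eval r := by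
  rw [Fr, Polynomial.eval_mul, Gr_eval, Polynomial.eval_prod]
  apply mul_pos (s_pos hr (hOP.1 m hm).2.1)
  apply prod_pos
  intro a _
  simp only [Polynomial.eval_add, Polynomial.eval_one, Polynomial.eval_pow, Polynomial.eval_X]
  positivity

theorem V_prod {ι : Type} (t : Finset ι) (f : ι → Polynomial ℝ) (r : ℝ) (h : ∀ i ∈ t, 0 < (f i).eval r) :
    V r (∏ i ∈ t, f i) = ∑ i ∈ t, V r (f i) := by
  classical
  induction t using Finset.induction_on with
  | empty => simp [V_one]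
  | insert a t ha ih =>
    rw [prod_insert ha, sum_insert ha, V_mul, ih (fun i hi => h i (mem_insert_of_mem hi))]
    · exact (h a (mem_insert_self _ _)).ne'
    · rw [Polynomial.eval_prod]
      exact (prod_pos fun i hi => h i (mem_insert_of_mem hi)).ne'

theorem va_eq (hOP : OPStmt) (hUU : UUStmt) (N : ℕ) {r : ℝ} (hr : 0 < r) :
    va N r = ∑ m ∈ Ioc 0 N, V r (Fr m) := by
  have hdeg : (Tr N).natDegree < dg N + 1 := by
    rw [Nat.lt_succ_iff, Polynomial.natDegree_le_iff_coeff_eq_zero]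
    intro k hk
    rw [← coeff_Tr]
    have := (hUU.1 0 N).top k hk
    rw [T, this]
    simp
  have h1 : va N r = V r (Tr N) := by
    rw [va, mu, V, ← Tr_eval, ← sum_m1 r (Tr N) hdeg, ← sum_m2 r (Tr N) hdeg]
    simp only [coeff_Tr]
  rw [h1, Tr, V_prod]
  intro m hm
  exact Fr_pos hOP (by have := (mem_Ioc.1 hm).1; omega) hr

theorem V_F_le (hOP : OPStmt) (hFF : FFStmt) {m : ℕ} (hm : 1 ≤ m) {r : ℝ} (hr : 0 < r) (hr1 : r < 1) :
    V r (Fr m) ≤ r / (1 - r) ^ 2 := by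
  have h1 : Fz m * ((1 - Polynomial.X) * (1 + Polynomial.X ^ op m)) = 1 - Polynomial.X ^ (2 * m) := by
    apply Polynomial.coe_injective
    have := hFF.2.1 m hm
    rw [← Fz_coe] at this
    simpa using this
  have h2 := congrArg (Polynomial.map (Int.castRingHom ℝ)) h1
  rw [Polynomial.map_mul, Fz_map] at h2
  simp only [Polynomial.map_mul, Polynomial.map_sub, Polynomial.map_add, Polynomial.map_one,
    Polynomial.map_X, Polynomial.map_pow] at h2
  have hrm : ∀ L : ℕ, 1 ≤ L → r ^ L < 1 := fun L hL => pow_lt_one₀ hr.le hr1 (by omega)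
  have e0 : (1 - Polynomial.X : Polynomial ℝ) = 1 - Polynomial.X ^ 1 := by rw [pow_one]
  have h3 : V r (Fr m) + (V r (1 - Polynomial.X ^ 1) + V r (1 + Polynomial.X ^ op m)) =
      V r (1 - Polynomial.X ^ (2 * m)) := by
    rw [← h2, e0, V_mul (Fr_pos hOP hm hr).ne', V_mul]
    · simp only [Polynomial.eval_sub, Polynomial.eval_one, Polynomial.eval_pow, Polynomial.eval_X, pow_one]
      linarith
    · simp only [Polynomial.eval_add, Polynomial.eval_one, Polynomial.eval_pow, Polynomial.eval_X]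
      positivity
    · simp only [Polynomial.eval_mul, Polynomial.eval_sub, Polynomial.eval_add, Polynomial.eval_one,
        Polynomial.eval_pow, Polynomial.eval_X, pow_one]
      have h4 : 0 < 1 - r := by linarith
      positivity
  rw [V_one_sub (by rw [pow_one]; linarith), V_one_add (by positivity),
    V_one_sub (by have := hrm (2 * m) (by omega); linarith)] at h3
  have h5 : 0 ≤ ((2 * m : ℕ) : ℝ) ^ 2 * r ^ (2 * m) / (1 - r ^ (2 * m)) ^ 2 := by positivity
  have h6 : 0 ≤ ((op m : ℕ) : ℝ) ^ 2 * r ^ op m / (1 + r ^ op m) ^ 2 := by positivity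
  rw [pow_one, Nat.cast_one, one_pow, one_mul] at h3
  linarith

theorem V_G_one {M : ℕ} (hM : 1 ≤ M) : V 1 (Gr M) = ((M : ℝ) ^ 2 - 1) / 12 := by
  have hM0 : (0 : ℝ) < M := by exact_mod_cast hM
  have h0 : (Gr M).eval 1 = M := by
    rw [Gr_eval, s]
    simp
  have a1 : ∀ M : ℕ, ∑ i ∈ range M, (i : ℝ) = (M : ℝ) * (M - 1) / 2 := by
    intro M
    induction M with
    | zero => simp
    | succ M ih => rw [sum_range_succ, ih]; push_cast; ring
  have a2 : ∀ M : ℕ, ∑ d ∈ range M, (d : ℝ) ^ 2 = (M : ℝ) * (M - 1) * (2 * M - 1) / 6 := by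
    intro M
    induction M with
    | zero => simp
    | succ M ih => rw [sum_range_succ, ih]; push_cast; ring
  have h1 : m1 1 (Gr M) = (M : ℝ) * (M - 1) / 2 := by
    rw [Gr, m1_sum, ← a1]
    apply sum_congr rfl
    intro i _
    rw [m1_pow]
    simp
  have h2 : m2 1 (Gr M) = (M : ℝ) * (M - 1) * (2 * M - 1) / 6 := by
    rw [Gr, m2_sum, ← a2]
    apply sum_congr rfl
    intro i _
    rw [m2_pow]
    simp
  rw [V, h0, h1, h2]
  field_simp
  ring

theorem V_G_le {M : ℕ} (hM : 1 ≤ M) {r : ℝ} (hr : 0 < r) (hr1 : r ≤ 1) :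
    V r (Gr M) ≤ ((M : ℝ) ^ 2 - 1) / 12 := by
  rcases eq_or_lt_of_le hr1 with h | h
  · rw [h, V_G_one hM]
  · have e : (1 - Polynomial.X ^ 1) * Gr M = 1 - Polynomial.X ^ M := by
      rw [pow_one, mul_comm, Gr]
      exact geom_sum_mul_neg Polynomial.X M
    have hrm : r ^ M < 1 := pow_lt_one₀ hr.le h (by omega)
    have h3 : V r (1 - Polynomial.X ^ 1) + V r (Gr M) = V r (1 - Polynomial.X ^ M) := by
      rw [← e, V_mul]
      · simp only [Polynomial.eval_sub, Polynomial.eval_one, Polynomial.eval_pow, Polynomial.eval_X, pow_one]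
        linarith
      · rw [Gr_eval]
        exact (s_pos hr hM).ne'
    rw [V_one_sub (by rw [pow_one]; linarith), V_one_sub (by linarith)] at h3
    rw [pow_one, Nat.cast_one, one_pow, one_mul] at h3
    have := phi_le hr h hM
    linarith

theorem V_F_sum (hOP : OPStmt) {m : ℕ} (hm : 1 ≤ m) {r : ℝ} (hr : 0 < r) :
    V r (Fr m) = V r (Gr (op m)) + ∑ a ∈ range (padicValNat 2 m),
      ((2 ^ (a + 1) * op m : ℕ) : ℝ) ^ 2 * r ^ (2 ^ (a + 1) * op m) / (1 + r ^ (2 ^ (a + 1) * op m)) ^ 2 := by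
  rw [Fr, V_mul, V_prod]
  · congr 1
    apply sum_congr rfl
    intro a _
    exact V_one_add (by positivity)
  · intro a _
    simp only [Polynomial.eval_add, Polynomial.eval_one, Polynomial.eval_pow, Polynomial.eval_X]
    positivity
  · rw [Gr_eval]
    exact (s_pos hr (hOP.1 m hm).2.1).ne'
  · rw [Polynomial.eval_prod]
    apply (prod_pos fun a _ => ?_).ne'
    simp only [Polynomial.eval_add, Polynomial.eval_one, Polynomial.eval_pow, Polynomial.eval_X]
    positivity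

theorem sum_four (v : ℕ) (x : ℝ) : ∑ a ∈ range v, (2 ^ (a + 1) * x) ^ 2 / 4 = x ^ 2 * (4 ^ v - 1) / 3 := by
  induction v with
  | zero => simp
  | succ v ih =>
    rw [sum_range_succ, ih]
    have h4 : (4 : ℝ) ^ v = (2 ^ v) ^ 2 := by
      rw [← pow_mul, mul_comm v 2, pow_mul]
      norm_num
    have : ((2 : ℝ) ^ (v + 1) * x) ^ 2 = 4 * 4 ^ v * x ^ 2 := by
      rw [h4, pow_succ]
      ring
    rw [this]
    rw [pow_succ]
    ring

theorem sum_eq (hOP : OPStmt) {m : ℕ} (hm : 1 ≤ m) :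
    ((op m : ℝ) ^ 2 - 1) / 12 + ∑ a ∈ range (padicValNat 2 m), ((2 ^ (a + 1) * op m : ℕ) : ℝ) ^ 2 / 4 =
      (4 * (m : ℝ) ^ 2 - 3 * (op m : ℝ) ^ 2 - 1) / 12 := by
  obtain ⟨_, _, _, h4⟩ := hOP.1 m hm
  have e : (m : ℝ) ^ 2 = 4 ^ padicValNat 2 m * (op m : ℝ) ^ 2 := by
    have : (m : ℝ) = 2 ^ padicValNat 2 m * (op m : ℝ) := by exact_mod_cast h4
    have h5 : (4 : ℝ) ^ padicValNat 2 m = (2 ^ padicValNat 2 m) ^ 2 := by
      rw [← pow_mul, mul_comm (padicValNat 2 m) 2, pow_mul]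
      norm_num
    rw [h5, ← mul_pow, ← this]
  rw [e]
  push_cast
  rw [sum_four]
  ring

theorem VA_thm (_hMOA : MOAStmt) (hOP : OPStmt) (hFF : FFStmt) (hUU : UUStmt) : VAStmt := by
  have hI : ∀ N : ℕ, Icc 1 N = Ioc 0 N := by intro N; ext; simp; omega
  refine ⟨?_, ?_, ?_⟩
  · intro N r hr hr1
    rw [va_eq hOP hUU N hr]
    have h1 : ∀ m ∈ Ioc 0 N, V r (Fr m) ≤ r / (1 - r) ^ 2 := by
      intro m hm
      exact V_F_le hOP hFF (by have := (mem_Ioc.1 hm).1; omega) hr hr1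
    refine le_trans (sum_le_sum h1) ?_
    rw [sum_const, Nat.card_Ioc, nsmul_eq_mul, Nat.sub_zero, mul_div_assoc]
  · intro N r hr hr1
    rw [va_eq hOP hUU N hr, sg, hI]
    apply sum_le_sum
    intro m hm
    have hm1 : 1 ≤ m := by have := (mem_Ioc.1 hm).1; omega
    rw [V_F_sum hOP hm1 hr, ← sum_eq hOP hm1]
    apply add_le_add (V_G_le (hOP.1 m hm1).2.1 hr hr1)
    apply sum_le_sum
    intro a _
    have hx : 0 < r ^ (2 ^ (a + 1) * op m) := by positivity
    rw [mul_div_assoc, div_eq_mul_inv (_ ^ 2) (4 : ℝ)]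
    apply mul_le_mul_of_nonneg_left _ (by positivity)
    rw [div_le_iff₀ (by positivity)]
    nlinarith [sq_nonneg (1 - r ^ (2 ^ (a + 1) * op m))]
  · intro N
    rw [va_eq hOP hUU N one_pos, sg, hI]
    apply sum_congr rfl
    intro m hm
    have hm1 : 1 ≤ m := by have := (mem_Ioc.1 hm).1; omega
    rw [V_F_sum hOP hm1 one_pos, ← sum_eq hOP hm1, V_G_one (hOP.1 m hm1).2.1]
    congr 1
    apply sum_congr rfl
    intro a _
    rw [one_pow]
    norm_num

end Pool.Agent.H28.UM.VA
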